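import Pool.Agent.Lib.MP_95e952_co.Core

namespace Pool.Agent.Lib.MP_95e952_co

/-- `t` lies in `ℤ[φ]` and `t'` is its conjugate. -/
def Zp (t t' : ℝ) : Prop := ∃ m n : ℤ, t = m + n * ph ∧ t' = m + n * (1 - ph)

lemma Zp.add {a a' b b' : ℝ} (ha : Zp a a') (hb : Zp b b') : Zp (a + b) (a' + b') := by
  obtain ⟨m, n, rfl, rfl⟩ := ha
  obtain ⟨m', n', rfl, rfl⟩ := hb
  exact ⟨m + m', n + n', by push_cast; ring, by push_cast; ring⟩

lemma Zp.mul {a a' b b' : ℝ} (ha : Zp a a') (hb : Zp b b') : Zp (a * b) (a' * b') := by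
  obtain ⟨m, n, rfl, rfl⟩ := ha
  obtain ⟨m', n', rfl, rfl⟩ := hb
  refine ⟨m * m' + n * n', m * n' + n * m' + n * n', ?_, ?_⟩
  · push_cast; linear_combination (n * n' : ℝ) * ph_sq
  · push_cast; linear_combination (n * n' : ℝ) * ph_sq

lemma Zp.int (m : ℤ) : Zp m m := ⟨m, 0, by simp, by simp⟩

lemma Zp.ph : Zp ph (1 - ph) := ⟨0, 1, by simp, by simp⟩

lemma Zp.congr {a a' b b' : ℝ} (h : Zp a a') (h1 : b = a) (h2 : b' = a') : Zp b b' := by
  rw [h1, h2]; exact h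

lemma Zp.finite (C : ℝ) : {t : ℝ | ∃ t', Zp t t' ∧ |t| ≤ C ∧ |t'| ≤ C}.Finite := by
  obtain ⟨N, hN⟩ := exists_nat_ge (3 * C)
  refine (((Set.finite_Icc (-(N : ℤ)) N).prod (Set.finite_Icc (-(N : ℤ)) N)).image
    (fun p : ℤ × ℤ => (p.1 : ℝ) + p.2 * MP_95e952_co.ph)).subset ?_
  rintro t ⟨t', ⟨m, n, rfl, rfl⟩, h1, h2⟩
  rw [abs_le] at h1 h2
  have := ph_gt
  have := ph_lt
  have hn : -C ≤ (n : ℝ) ∧ (n : ℝ) ≤ C := by
    constructor
    · by_contra hc; push Not at hc; nlinarith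
    · by_contra hc; push Not at hc; nlinarith
  have hm : -(3 * C) ≤ (m : ℝ) ∧ (m : ℝ) ≤ 3 * C := by
    constructor <;> nlinarith
  refine ⟨(m, n), ⟨⟨?_, ?_⟩, ⟨?_, ?_⟩⟩, rfl⟩
  · have : ((-(N : ℤ) : ℤ) : ℝ) ≤ m := by push_cast; linarith
    exact_mod_cast this
  · have : (m : ℝ) ≤ ((N : ℤ) : ℝ) := by push_cast; linarith
    exact_mod_cast this
  · have : ((-(N : ℤ) : ℤ) : ℝ) ≤ n := by push_cast; linarith
    exact_mod_cast this
  · have : (n : ℝ) ≤ ((N : ℤ) : ℝ) := by push_cast; linarith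
    exact_mod_cast this

/-- The weight lattice, together with conjugate vectors. -/
def Lat (x x' : V) : Prop := ∀ i, Zp (kk ph i x) (kk (1 - ph) i x')

lemma cartan (i j : Fin 4) : Zp (kk ph j (nn ph i)) (kk (1 - ph) j (nn (1 - ph) i)) := by
  by_cases h : j = i
  · subst h; rw [kk_nn ph_sq, kk_nn ps_sq]; exact (Zp.int (-2)).congr (by simp) (by simp)
  have h0 : Zp 0 0 := (Zp.int 0).congr (by simp) (by simp)
  have h1 : Zp 1 1 := (Zp.int 1).congr (by simp) (by simp)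
  fin_cases i <;> fin_cases j <;> simp [kk, nn] at h ⊢ <;>
    first | exact h0 | exact h1 | exact Zp.ph

lemma Lat.rf {x x' : V} (h : Lat x x') (i : Fin 4) : Lat (rf ph i x) (rf (1 - ph) i x') := by
  intro j
  rw [MP_95e952_co.rf, MP_95e952_co.rf, kk_add, kk_add, kk_smul, kk_smul]
  exact (h j).add ((h i).mul (cartan i j))

lemma G.conj {γ : V ≃ₗ[ℝ] V} (hγ : G γ) {x x' : V} (h : Lat x x') :
    ∃ z', Lat (γ x) z' ∧ QQ (1 - ph) z' z' = QQ (1 - ph) x' x' ∧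
      ∀ y y', Lat y y' → Zp ((QQ ph (γ x) y - QQ ph x y) / 2)
        ((QQ (1 - ph) z' y' - QQ (1 - ph) x' y') / 2) := by
  induction hγ generalizing x x' with
  | one => exact ⟨x', h, rfl, fun y y' _ => (Zp.int 0).congr (by simp) (by simp)⟩
  | step γ i _ ih =>
    obtain ⟨z', h1, h2, h3⟩ := ih (h.rf i)
    refine ⟨z', h1, by rw [h2, QQ_rf ps_sq], fun y y' hy => ?_⟩
    refine ((h3 y y' hy).add ((Zp.ph.mul (h i)).mul (hy i))).congr ?_ ?_
    · rw [QQ_rf_left ph_sq]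
      show (QQ ph (γ (rf ph i x)) y - _) / 2 = _
      ring
    · rw [QQ_rf_left ps_sq]; ring

lemma conj_cs (x y : V) : 2 * |QQ (1 - ph) x y| ≤ QQ (1 - ph) x x + QQ (1 - ph) y y := by
  obtain ⟨a, b, c, d⟩ := x
  obtain ⟨a', b', c', d'⟩ := y
  have h : 0 < ph - 1 := by linarith [ph_gt]
  have h1 : 0 ≤ (d - d') ^ 2 + (ph - 1) * ((a - a') ^ 2 + (b - b') ^ 2 + (c - c') ^ 2) := by
    positivity
  have h2 : 0 ≤ (d + d') ^ 2 + (ph - 1) * ((a + a') ^ 2 + (b + b') ^ 2 + (c + c') ^ 2) := by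
    positivity
  simp only [QQ]
  rcases abs_cases (d * d' - (1 - ph) * (a * a' + b * b' + c * c')) with h | h <;> nlinarith

lemma orbit_finite {x x' : V} (h : Lat x x') (hx : Pos x) (R : ℝ) :
    {y : V | (∃ γ, G γ ∧ γ x = y) ∧ y.2.2.2 ≤ R}.Finite := by
  obtain ⟨N, hN⟩ : ∃ N, N = QQ (1 - ph) x' x' := ⟨_, rfl⟩
  set C := |R| + 2 * |N| + 1
  have hF := Zp.finite C
  refine (hF.prod (hF.prod (hF.prod hF))).subset ?_
  rintro y ⟨⟨γ, hγ, rfl⟩, hR⟩
  obtain ⟨⟨a', b', c', d'⟩, h1, h2, -⟩ := hγ.conj h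
  obtain ⟨hp1, hp2⟩ := hγ.pos hx
  generalize γ x = y at *
  obtain ⟨a, b, c, d⟩ := y
  have k0 : Zp a a' := h1 0
  have k1 : Zp b b' := h1 1
  have k2 : Zp c c' := h1 2
  have k3 : Zp (((ph - 1) * d - a - b - ph * c) / 2)
    (((1 - ph - 1) * d' - a' - b' - (1 - ph) * c') / 2) := h1 3
  have k4 : Zp d d' := by
    refine (Zp.ph.mul ((((k3.add k3).add k0).add k1).add (Zp.ph.mul k2))).congr ?_ ?_
    · linear_combination (-d) * ph_sq
    · linear_combination (-d') * ph_sq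
  rw [← hN] at h2
  simp only [Q_def, QQ] at hp1 hp2 h2 hR
  have := ph_gt
  have hRa := le_abs_self R
  have hNa := le_abs_self N
  have hR0 := abs_nonneg R
  have hN0 := abs_nonneg N
  have ha := mul_self_nonneg a; have hb := mul_self_nonneg b; have hc := mul_self_nonneg c
  have ha' := mul_self_nonneg a'; have hb' := mul_self_nonneg b'; have hc' := mul_self_nonneg c'
  have hd' := mul_self_nonneg d'
  have e1 : ∀ t : ℝ, t * t ≤ d * d → |t| ≤ C := fun t ht => by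
    have : |t| ≤ d := abs_le_of_sq_le_sq (by nlinarith) hp1.le
    simp only [C]; linarith
  have e2 : ∀ t : ℝ, t * t ≤ 2 * N → |t| ≤ C := fun t ht => by
    have h5 : |t| * |t| = t * t := abs_mul_abs_self t
    simp only [C]; nlinarith [abs_nonneg t]
  have f1 : a * a + b * b + c * c ≤ d * d := by nlinarith
  have f2 : a' * a' + b' * b' + c' * c' + d' * d' ≤ 2 * N := by nlinarith
  exact ⟨⟨a', k0, e1 a (by linarith), e2 _ (by linarith)⟩,
    ⟨b', k1, e1 b (by linarith), e2 _ (by linarith)⟩,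
    ⟨c', k2, e1 c (by linarith), e2 _ (by linarith)⟩, ⟨d', k4, e1 d le_rfl, e2 _ (by linarith)⟩⟩

noncomputable def v0 : V := (1, 0, 0, ph)
noncomputable def cI : V := (0, 1, 0, ph)
noncomputable def cT : V := (0, 0, 1, ph + 1)
noncomputable def rho : V := (1, 1, 1, 5 * ph + 1)

lemma lat_v0 : Lat v0 (1, 0, 0, 1 - ph) := by
  intro i
  fin_cases i
  · exact (Zp.int 1).congr (by simp [kk, v0]) (by simp [kk])
  · exact (Zp.int 0).congr (by simp [kk, v0]) (by simp [kk])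
  · exact (Zp.int 0).congr (by simp [kk, v0]) (by simp [kk])
  · exact (Zp.int 0).congr (by simp [kk, v0]; linear_combination ph_sq)
      (by simp [kk]; linear_combination ph_sq)

lemma lat_cI : Lat cI (0, 1, 0, 1 - ph) := by
  intro i
  fin_cases i
  · exact (Zp.int 0).congr (by simp [kk, cI]) (by simp [kk])
  · exact (Zp.int 1).congr (by simp [kk, cI]) (by simp [kk])
  · exact (Zp.int 0).congr (by simp [kk, cI]) (by simp [kk])
  · exact (Zp.int 0).congr (by simp [kk, cI]; linear_combination ph_sq)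
      (by simp [kk]; linear_combination ph_sq)

lemma lat_cT : Lat cT (0, 0, 1, 2 - ph) := by
  intro i
  fin_cases i
  · exact (Zp.int 0).congr (by simp [kk, cT]) (by simp [kk])
  · exact (Zp.int 0).congr (by simp [kk, cT]) (by simp [kk])
  · exact (Zp.int 1).congr (by simp [kk, cT]) (by simp [kk])
  · exact (Zp.int 0).congr (by simp [kk, cT]; linear_combination ph_sq)
      (by simp [kk]; linear_combination ph_sq)

lemma lat_rho : Lat rho (1, 1, 1, 6 - 5 * ph) := by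
  intro i
  fin_cases i
  · exact (Zp.int 1).congr (by simp [kk, rho]) (by simp [kk])
  · exact (Zp.int 1).congr (by simp [kk, rho]) (by simp [kk])
  · exact (Zp.int 1).congr (by simp [kk, rho]) (by simp [kk])
  · exact (Zp.int 1).congr (by simp [kk, rho]; linear_combination (5 / 2) * ph_sq)
      (by simp [kk]; linear_combination (5 / 2) * ph_sq)

lemma Q_v0 : Q v0 v0 = 1 := by simp [Q_def, v0]; linear_combination ph_sq
lemma Q_cI : Q cI cI = 1 := by simp [Q_def, cI]; linear_combination ph_sq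
lemma pos_v0 : Pos v0 := ⟨ph_pos, by simp [Q_v0]⟩
lemma pos_cI : Pos cI := ⟨ph_pos, by simp [Q_cI]⟩
lemma pos_cT : Pos cT := by
  have := ph_pos
  refine ⟨by simp [cT]; linarith, by simp [Q_def, cT]; nlinarith⟩
lemma pos_rho : Pos rho := by
  have := ph_pos
  refine ⟨by simp [rho]; linarith, by simp [Q_def, rho]; nlinarith⟩

/-- The fundamental chamber. -/
def Ch (p : V) : Prop := ∀ i, 0 ≤ k i p

lemma exists_chamber {p : V} (hp : Pos p) : ∃ γ, G γ ∧ Ch (γ p) := by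
  have hF := orbit_finite lat_rho pos_rho (2 * p.2.2.2 * Q p rho / Q p p)
  have key : ∀ γ, G γ → Q p (γ rho) ≤ Q p rho → γ rho ∈
      {y : V | (∃ γ, G γ ∧ γ rho = y) ∧ y.2.2.2 ≤ 2 * p.2.2.2 * Q p rho / Q p p} := by
    intro γ hγ h
    refine ⟨⟨γ, hγ, rfl⟩, ?_⟩
    rw [le_div_iff₀ hp.2]
    have := hp.bound (hγ.pos pos_rho)
    have := hp.1
    nlinarith
  obtain ⟨y, ⟨⟨γ, hγ, rfl⟩, -⟩, hy⟩ := Set.exists_min_image _ (Q p) hF ⟨_, key 1 G.one le_rfl⟩
  have h0 : Q p (γ rho) ≤ Q p rho := hy _ (key 1 G.one le_rfl)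
  refine ⟨γ.symm, hγ.symm, fun i => ?_⟩
  have h1 : Q p (γ rho) ≤ Q p (γ (s i rho)) := by
    by_cases h : Q p (γ (s i rho)) ≤ Q p rho
    · exact hy _ (key (γ * s i) (hγ.step _ _) h)
    · linarith
  rw [Q_comm p, Q_comm p, hγ.Q', hγ.Q', Q_comm (s i rho), Q_s, Q_comm rho] at h1
  have h2 : k i rho = 1 := by
    fin_cases i <;> simp [k, kk, rho]
    linear_combination (5 / 2) * ph_sq
  rw [h2] at h1
  have := ph_pos
  by_contra hc
  nlinarith

/-- The vertex set. -/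
def W : Set V := {w | ∃ γ, G γ ∧ γ v0 = w}

lemma W.pos {w : V} (h : w ∈ W) : Pos w := by obtain ⟨γ, hγ, rfl⟩ := h; exact hγ.pos pos_v0
lemma W.norm {w : V} (h : w ∈ W) : Q w w = 1 := by obtain ⟨γ, hγ, rfl⟩ := h; rw [hγ.Q, Q_v0]
lemma G.W {γ : V ≃ₗ[ℝ] V} (hγ : G γ) {w : V} (h : w ∈ W) : γ w ∈ W := by
  obtain ⟨δ, hδ, rfl⟩ := h; exact ⟨γ * δ, hγ.mul hδ, rfl⟩
lemma v0_mem : v0 ∈ W := ⟨1, G.one, rfl⟩

lemma W.Q_W {w w' : V} (h : w ∈ W) (h' : w' ∈ W) (hne : w ≠ w') : 2 * ph + 1 ≤ Q w w' := by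
  obtain ⟨δ, hδ, rfl⟩ := h
  obtain ⟨γ, hγ, hw⟩ := hδ.symm.W h'
  have h1 : 1 < Q (δ v0) w' := by
    by_contra hc
    exact hne (unit_eq (hδ.pos pos_v0) (W.pos h') (by rw [hδ.Q, Q_v0]) (W.norm h') (not_lt.1 hc))
  rw [hδ.Q', ← hw] at h1 ⊢
  obtain ⟨z', -, h2, h3⟩ := hγ.conj lat_v0
  obtain ⟨m, n, h4, h5⟩ := h3 _ _ lat_v0
  have h6 := conj_cs z' (1, 0, 0, 1 - ph)
  have h7 : QQ (1 - ph) (1, 0, 0, 1 - ph) (1, 0, 0, 1 - ph) = 1 := by
    simp [QQ]; linear_combination ph_sq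
  have h8 : QQ ph v0 v0 = 1 := Q_v0
  rw [h2, h7] at h6
  rw [h7] at h5
  rw [h8] at h4
  change 1 < QQ ph (γ v0) v0 at h1
  change _ ≤ QQ ph (γ v0) v0
  have h9 := abs_le.1 (show |QQ (1 - ph) z' (1, 0, 0, 1 - ph)| ≤ 1 by linarith)
  have := ph_gt
  have := ph_lt
  have hn : 1 ≤ n := by
    have : (0 : ℝ) < n := by by_contra hc; push Not at hc; nlinarith
    exact_mod_cast this
  have hn' : (1 : ℝ) ≤ n := by exact_mod_cast hn
  have hm : 0 ≤ m := by
    have : (-1 : ℝ) < m := by nlinarith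
    have : -1 < m := by exact_mod_cast this
    omega
  have hm' : (0 : ℝ) ≤ m := by exact_mod_cast hm
  nlinarith

lemma W.Q_cI {w : V} (h : w ∈ W) : ph + 1 ≤ Q cI w := by
  have h1 : 0 < Q cI w := pos_cI.Q_pos (W.pos h)
  obtain ⟨γ, hγ, rfl⟩ := h
  obtain ⟨z', -, h2, h3⟩ := hγ.conj lat_v0
  obtain ⟨m, n, h4, h5⟩ := h3 _ _ lat_cI
  have h6 := conj_cs z' (0, 1, 0, 1 - ph)
  have h7 : QQ (1 - ph) (1, 0, 0, 1 - ph) (1, 0, 0, 1 - ph) = 1 := by
    simp [QQ]; linear_combination ph_sq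
  have h7' : QQ (1 - ph) (0, 1, 0, 1 - ph) (0, 1, 0, 1 - ph) = 1 := by
    simp [QQ]; linear_combination ph_sq
  have h7'' : QQ (1 - ph) (1, 0, 0, 1 - ph) (0, 1, 0, 1 - ph) = 2 - ph := by
    simp [QQ]; linear_combination ph_sq
  have h8 : QQ ph v0 cI = ph + 1 := by simp [QQ, v0, cI]; linear_combination ph_sq
  rw [h2, h7, h7'] at h6
  rw [h7''] at h5
  rw [h8] at h4
  change 0 < QQ ph (γ v0) cI at h1
  change _ ≤ QQ ph (γ v0) cI
  have h9 := abs_le.1 (show |QQ (1 - ph) z' (0, 1, 0, 1 - ph)| ≤ 1 by linarith)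
  have := ph_gt
  have := ph_lt
  have hn : 0 ≤ n := by
    have : (-1 : ℝ) < n := by by_contra hc; push Not at hc; nlinarith
    have : -1 < n := by exact_mod_cast this
    omega
  have hn' : (0 : ℝ) ≤ n := by exact_mod_cast hn
  have hm : 0 ≤ m := by
    have : (-1 : ℝ) < m := by nlinarith
    have : -1 < m := by exact_mod_cast this
    omega
  have hm' : (0 : ℝ) ≤ m := by exact_mod_cast hm
  nlinarith

end Pool.Agent.Lib.MP_95e952_co
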