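import Pool.Agent.Lib.MP_95e952_co.Arith

namespace Pool.Agent.Lib.MP_95e952_co

lemma Q_smul_left (t : ℝ) (y w : V) : Q (t • y) w = t * Q y w := by
  rw [Q_comm, map_smul, Q_comm, smul_eq_mul]

lemma Q_add_left (y y' w : V) : Q (y + y') w = Q y w + Q y' w := by
  rw [Q_comm, map_add, Q_comm w, Q_comm w]

/-- The convex cone generated by `A`. -/
inductive Cn (A : Set V) : V → Prop
  | zero : Cn A 0
  | step (t : ℝ) (w p : V) : 0 ≤ t → w ∈ A → Cn A p → Cn A (t • w + p)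

variable {A A' : Set V} {p q y y' c c' : V} {γ : V ≃ₗ[ℝ] V}

lemma Cn.add (hp : Cn A p) (hq : Cn A q) : Cn A (p + q) := by
  induction hp with
  | zero => simpa using hq
  | step t w p ht hw _ ih => rw [add_assoc]; exact Cn.step _ _ _ ht hw ih

lemma Cn.smul (hp : Cn A p) {a : ℝ} (ha : 0 ≤ a) : Cn A (a • p) := by
  induction hp with
  | zero => simpa using Cn.zero
  | step t w p ht hw _ ih => rw [smul_add, smul_smul]; exact Cn.step _ _ _ (mul_nonneg ha ht) hw ih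

lemma Cn.of_mem (h : p ∈ A) : Cn A p := by simpa using Cn.step 1 p 0 zero_le_one h Cn.zero

lemma Cn.mono (hp : Cn A p) (h : A ⊆ A') : Cn A' p := by
  induction hp with
  | zero => exact Cn.zero
  | step t w p ht hw _ ih => exact Cn.step _ _ _ ht (h hw) ih

lemma Cn.map (hp : Cn A p) (γ : V ≃ₗ[ℝ] V) : Cn (γ '' A) (γ p) := by
  induction hp with
  | zero => simpa using Cn.zero
  | step t w p ht hw _ ih => rw [map_add, map_smul]; exact Cn.step _ _ _ ht ⟨w, hw, rfl⟩ ih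

lemma Cn.nonneg (hp : Cn A p) (h : V →ₗ[ℝ] ℝ) (hA : ∀ w ∈ A, 0 ≤ h w) : 0 ≤ h p := by
  induction hp with
  | zero => simp
  | step t w p ht hw _ ih => rw [map_add, map_smul]; exact add_nonneg (mul_nonneg ht (hA w hw)) ih

lemma Cn.restrict (hp : Cn A p) (h : V →ₗ[ℝ] ℝ) (hA : ∀ w ∈ A, 0 ≤ h w) (h0 : h p ≤ 0) :
    Cn {w ∈ A | h w = 0} p := by
  induction hp with
  | zero => exact Cn.zero
  | step t w p ht hw hp ih =>
    rw [map_add, map_smul, smul_eq_mul] at h0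
    have h1 := hp.nonneg h hA
    have h2 := mul_nonneg ht (hA w hw)
    have h3 := ih (by linarith)
    rcases mul_eq_zero.1 (show t * h w = 0 by linarith) with h4 | h4
    · simpa [h4] using h3
    · exact Cn.step _ _ _ ht ⟨hw, h4⟩ h3

lemma Cn.hull (hp : Cn A p) (f : V →ₗ[ℝ] ℝ) (hA : ∀ w ∈ A, f w = 1) (h1 : f p = 1) :
    p ∈ convexHull ℝ A := by
  have key : p = 0 ∨ ∃ a : ℝ, 0 < a ∧ ∃ x ∈ convexHull ℝ A, f x = 1 ∧ p = a • x := by
    clear h1
    induction hp with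
    | zero => exact Or.inl rfl
    | step t w p ht hw hp ih =>
      rcases ht.eq_or_lt with rfl | ht
      · simpa using ih
      rcases ih with rfl | ⟨a, ha, x, hx, hf, rfl⟩
      · exact Or.inr ⟨t, ht, w, subset_convexHull ℝ A hw, hA w hw, by simp⟩
      · have hs : 0 < t + a := add_pos ht ha
        refine Or.inr ⟨t + a, hs, (t / (t + a)) • w + (a / (t + a)) • x,
          convex_convexHull ℝ A (subset_convexHull ℝ A hw) hx (by positivity) (by positivity)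
            (by field_simp), ?_, ?_⟩
        · rw [map_add, map_smul, map_smul, hA w hw, hf]; simp only [smul_eq_mul]; field_simp
        · rw [smul_add, smul_smul, smul_smul, mul_div_cancel₀ _ hs.ne', mul_div_cancel₀ _ hs.ne']
  rcases key with rfl | ⟨a, -, x, hx, hf, rfl⟩
  · simp at h1
  · rw [map_smul, hf, smul_eq_mul, mul_one] at h1
    rwa [h1, one_smul]

/-- Relative interior of the cone over `A`. -/
def RI (A : Set V) (p : V) : Prop := Cn A p ∧ ∀ w ∈ A, ∃ e : ℝ, 0 < e ∧ Cn A (p - e • w)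

lemma RI.zero (hp : RI A p) (h : V →ₗ[ℝ] ℝ) (hA : ∀ w ∈ A, 0 ≤ h w) (h0 : h p ≤ 0) :
    ∀ w ∈ A, h w = 0 := by
  intro w hw
  obtain ⟨e, he, h1⟩ := hp.2 w hw
  have h2 := h1.nonneg h hA
  rw [map_sub, map_smul, smul_eq_mul] at h2
  have := hA w hw
  nlinarith

lemma RI.add (hp : RI A p) (hq : Cn A q) : RI A (q + p) := by
  refine ⟨hq.add hp.1, fun w hw => ?_⟩
  obtain ⟨e, he, h1⟩ := hp.2 w hw
  exact ⟨e, he, by rw [add_sub_assoc]; exact hq.add h1⟩

lemma RI.smul (hp : RI A p) {a : ℝ} (ha : 0 < a) : RI A (a • p) := by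
  refine ⟨hp.1.smul ha.le, fun w hw => ?_⟩
  obtain ⟨e, he, h1⟩ := hp.2 w hw
  exact ⟨a * e, mul_pos ha he, by rw [← smul_smul, ← smul_sub]; exact h1.smul ha.le⟩

lemma RI.map (hp : RI A p) (γ : V ≃ₗ[ℝ] V) : RI (γ '' A) (γ p) := by
  refine ⟨hp.1.map γ, ?_⟩
  rintro _ ⟨w, hw, rfl⟩
  obtain ⟨e, he, h1⟩ := hp.2 w hw
  exact ⟨e, he, by rw [← map_smul, ← map_sub]; exact h1.map γ⟩

lemma Cn.sum (S : Finset V) (h : ↑S ⊆ A) : Cn A (∑ w ∈ S, w) :=
  Finset.sum_induction _ _ (fun _ _ => Cn.add) Cn.zero fun _ hw => Cn.of_mem (h hw)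

lemma RI.sum (S : Finset V) : RI S (∑ w ∈ S, w) := by
  classical
  refine ⟨Cn.sum S le_rfl, fun w hw => ⟨1, one_pos, ?_⟩⟩
  rw [one_smul, ← Finset.sum_erase_eq_sub (f := fun w => w) hw]
  exact Cn.sum _ (by simp)

lemma Pos.sum {ι : Type*} (S : Finset ι) (hS : S.Nonempty) (f : ι → V) (h : ∀ i ∈ S, Pos (f i)) :
    Pos (∑ i ∈ S, f i) :=
  Finset.sum_induction_nonempty _ _ (fun _ _ => Pos.add) hS h

/-- `y` is the centre of the cell with vertex set `A`. -/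
structure Ctr (A : Set V) (y : V) : Prop where
  sub : A ⊆ W
  pos : Pos y
  ge : ∀ w ∈ W, 1 ≤ Q y w
  eq : ∀ w ∈ W, Q y w = 1 ↔ w ∈ A
  ri : RI A y

lemma Ctr.one (h : Ctr A y) {w : V} (hw : w ∈ A) : Q y w = 1 := (h.eq w (h.sub hw)).2 hw

lemma Ctr.map (h : Ctr A y) (hγ : G γ) : Ctr (γ '' A) (γ y) where
  sub := by rintro _ ⟨w, hw, rfl⟩; exact hγ.W (h.sub hw)
  pos := hγ.pos h.pos
  ge w hw := by rw [hγ.Q']; exact h.ge _ (hγ.symm.W hw)
  eq w hw := by
    rw [hγ.Q', h.eq _ (hγ.symm.W hw)]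
    exact ⟨fun h => ⟨_, h, by simp⟩, by rintro ⟨w', hw', rfl⟩; simpa using hw'⟩
  ri := h.ri.map γ

lemma Ctr.subset (h : Ctr A y) (h' : Ctr A' y') (hp : Cn A p) (hp' : RI A' p) : A' ⊆ A := by
  intro w hw
  have h1 := hp.nonneg (Q y' - Q y) fun w hw => by
    simp only [LinearMap.sub_apply, h.one hw, sub_nonneg]; exact h'.ge _ (h.sub hw)
  have h2 := hp'.zero (Q y - Q y') (fun w hw => by
    simp only [LinearMap.sub_apply, h'.one hw, sub_nonneg]; exact h.ge _ (h'.sub hw))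
    (by simp only [LinearMap.sub_apply] at h1 ⊢; linarith) w hw
  simp only [LinearMap.sub_apply, h'.one hw, sub_eq_zero] at h2
  exact (h.eq w (h'.sub hw)).1 h2

lemma Ctr.unique (h : Ctr A y) (h' : Ctr A' y') (hp : RI A p) (hp' : RI A' p) : A = A' :=
  (h'.subset h hp'.1 hp).antisymm (h.subset h' hp.1 hp')

lemma ctr_clique (S : Finset V) (hS : ↑S ⊆ W) (hq : ∀ a ∈ S, ∀ b ∈ S, a ≠ b → Q a b = 2 * ph + 1)
    {z a : V} {t : ℝ} (ht : 0 < t) (hz : ∑ w ∈ S, w = t • z) (ha : a ∈ S) :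
    Ctr S ((Q z a)⁻¹ • z) := by
  classical
  have hsum : ∀ w, t * Q z w = ∑ b ∈ S, Q w b := fun w => by
    rw [← map_sum, hz, map_smul, Q_comm, smul_eq_mul]
  have hin : ∀ w ∈ S, t * Q z w = 1 + ((S.card : ℝ) - 1) * (2 * ph + 1) := fun w hw => by
    rw [hsum, ← Finset.add_sum_erase _ _ hw, W.norm (hS hw), Finset.sum_congr rfl
      fun b hb => hq w hw b (Finset.mem_of_mem_erase hb) (Finset.ne_of_mem_erase hb).symm,
      Finset.sum_const, Finset.card_erase_of_mem hw, nsmul_eq_mul,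
      Nat.cast_sub (Finset.card_pos.2 ⟨w, hw⟩), Nat.cast_one]
  have hout : ∀ w ∈ W, w ∉ S → (S.card : ℝ) * (2 * ph + 1) ≤ t * Q z w := fun w hw hw' => by
    rw [hsum, ← nsmul_eq_mul]
    exact Finset.card_nsmul_le_sum _ _ _ fun b hb => W.Q_W hw (hS hb) fun h => hw' (h ▸ hb)
  have hP : Pos z := by
    have := (Pos.sum S ⟨a, ha⟩ (fun w => w) fun w hw => W.pos (hS hw)).smul (inv_pos.2 ht)
    rwa [hz, smul_smul, inv_mul_cancel₀ ht.ne', one_smul] at this
  have hc : 0 < Q z a := hP.Q_pos (W.pos (hS ha))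
  have hQ : ∀ w, Q ((Q z a)⁻¹ • z) w = Q z w / Q z a := fun w => by
    rw [Q_smul_left, div_eq_inv_mul]
  have h1 : ∀ w ∈ S, Q z w = Q z a := fun w hw =>
    mul_left_cancel₀ ht.ne' (by rw [hin w hw, hin a ha])
  have h2 : ∀ w ∈ W, w ∉ S → Q z a < Q z w := fun w hw hw' => by
    have := hout w hw hw'
    have := hin a ha
    have := ph_pos
    exact lt_of_mul_lt_mul_left (by linarith) ht.le
  refine ⟨hS, hP.smul (inv_pos.2 hc), fun w hw => ?_, fun w hw => ?_, ?_⟩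
  · rw [hQ, one_le_div hc]
    by_cases h : w ∈ S
    · exact (h1 w h).ge
    · exact (h2 w hw h).le
  · rw [hQ, div_eq_one_iff_eq hc.ne']
    exact ⟨fun h => by_contra fun h' => (h2 w hw h').ne' h, h1 w⟩
  · have := (RI.sum S).smul (mul_pos (inv_pos.2 hc) (inv_pos.2 ht))
    rwa [hz, smul_smul, mul_assoc, inv_mul_cancel₀ ht.ne', mul_one] at this

noncomputable def v1 : V := (-1, 0, 0, ph)
noncomputable def v2 : V := (0, 1, ph, ph + 1)
noncomputable def v3 : V := (0, -1, ph, ph + 1)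
noncomputable def u2 : V := (0, 1, -ph, ph + 1)
noncomputable def u4 : V := (ph, ph + 1, 1, 2 * ph + 1)

lemma s0_v0 : s 0 v0 = v1 := s0 _ _ _ _
lemma s3_v1 : s 3 v1 = v2 := by
  rw [v1, s3 _ _ _ _ 1 (by linear_combination ph_sq)]; simp [v2]
lemma s1_v2 : s 1 v2 = v3 := s1 _ _ _ _
lemma s2_v2 : s 2 v2 = u2 := s2 _ _ _ _
lemma s3_u2 : s 3 u2 = u4 := by
  rw [u2, s3 _ _ _ _ ph (by linear_combination 2 * ph_sq)]
  simp only [u4, Prod.mk.injEq]
  refine ⟨by ring, by ring, by linear_combination ph_sq, by ring⟩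

lemma v1_mem : v1 ∈ W := s0_v0 ▸ (G.gen 0).W v0_mem
lemma v2_mem : v2 ∈ W := s3_v1 ▸ (G.gen 3).W v1_mem
lemma v3_mem : v3 ∈ W := s1_v2 ▸ (G.gen 1).W v2_mem
lemma u2_mem : u2 ∈ W := s2_v2 ▸ (G.gen 2).W v2_mem
lemma u4_mem : u4 ∈ W := s3_u2 ▸ (G.gen 3).W u2_mem

/-- Vertex sets of the base vertex, edge, triangle, tetrahedron and icosahedron. -/
def B : Fin 5 → Set V :=
  ![{v0}, {v0, v1}, {v0, v1, v2}, {v0, v1, v2, v3}, {w ∈ W | Q cI w = ph + 1}]

noncomputable def r : Fin 5 → V := ![v0, (0, 0, 0, 1), (0, 1, ph, 3 * ph + 1), cT, cI]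

noncomputable def yy (j : Fin 5) : V := (Q (r j) v0)⁻¹ • r j

lemma clique3 : ∀ a ∈ B 3, ∀ b ∈ B 3, a ≠ b → Q a b = 2 * ph + 1 := by
  have h := ph_sq
  intro a ha b hb hab
  simp only [B, Matrix.cons_val, Set.mem_insert_iff, Set.mem_singleton_iff] at ha hb
  rcases ha with rfl | rfl | rfl | rfl <;> rcases hb with rfl | rfl | rfl | rfl <;>
    first | exact absurd rfl hab | (simp only [Q_def, v0, v1, v2, v3]; nlinarith)

lemma ne01 : v0 ≠ v1 := by simp [v0, v1]; norm_num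
lemma ne02 : v0 ≠ v2 := by simp [v0, v2]
lemma ne03 : v0 ≠ v3 := by simp [v0, v3]
lemma ne12 : v1 ≠ v2 := by simp [v1, v2]
lemma ne13 : v1 ≠ v3 := by simp [v1, v3]
lemma ne23 : v2 ≠ v3 := by simp [v2, v3]; norm_num

lemma B4_finite : (B 4).Finite := by
  refine (orbit_finite lat_v0 pos_v0 (2 * ph * (ph + 1))).subset ?_
  rintro w ⟨hw, h⟩
  refine ⟨hw, ?_⟩
  have := pos_cI.bound (W.pos hw)
  rw [Q_cI, h] at this
  simpa [cI] using this

lemma B2_sub : B 2 ⊆ B 4 := by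
  have h := ph_sq
  rintro w (rfl | rfl | rfl)
  · exact ⟨v0_mem, by simp only [Q_def, v0, cI]; nlinarith⟩
  · exact ⟨v1_mem, by simp only [Q_def, v1, cI]; nlinarith⟩
  · exact ⟨v2_mem, by simp only [Q_def, v2, cI]; nlinarith⟩

lemma ctr_B4 : Ctr (B 4) (yy 4) := by
  have hp := ph_pos
  have h0 : Q (r 4) v0 = ph + 1 := (B2_sub (Or.inl rfl)).2
  have hQ : ∀ w, Q (yy 4) w = Q cI w / (ph + 1) := fun w => by
    rw [yy, h0, Q_smul_left, div_eq_inv_mul]; rfl
  refine ⟨fun w hw => hw.1, Pos.smul pos_cI (by rw [h0]; positivity), fun w hw => ?_,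
    fun w hw => ?_, ?_⟩
  · rw [hQ, one_le_div (by positivity)]; exact W.Q_cI hw
  · rw [hQ, div_eq_one_iff_eq (by positivity)]; exact ⟨fun h => ⟨hw, h⟩, fun h => h.2⟩
  obtain ⟨S, hS⟩ := B4_finite.exists_finset_coe
  have hm : ∀ w, w ∈ S ↔ w ∈ B 4 := fun w => by rw [← hS]; rfl
  have hk : ∀ i, k i cI = 0 → k i (∑ w ∈ S, w) = 0 := fun i hi => by
    have h1 : ∀ w ∈ S, s i w ∈ S := fun w hw => by
      rw [hm] at hw ⊢
      exact ⟨(G.gen i).W hw.1, by rw [Q_s, hi, hw.2]; ring⟩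
    have h2 : s i (∑ w ∈ S, w) = ∑ w ∈ S, w := by
      rw [map_sum]
      exact Finset.sum_nbij' (s i) (s i) h1 h1 (fun w _ => s_s i w) (fun w _ => s_s i w)
        fun _ _ => rfl
    have h3 : k i (s i (∑ w ∈ S, w)) = -k i (∑ w ∈ S, w) := kk_rf ph_sq _ _
    rw [h2] at h3
    linarith
  have hP := Pos.sum S ⟨v0, (hm _).2 (B2_sub (Or.inl rfl))⟩ (fun w => w)
    fun w hw => W.pos ((hm _).1 hw).1
  have hR := RI.sum S
  have k0 := hk 0 (by simp [k, kk, cI])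
  have k2 := hk 2 (by simp [k, kk, cI])
  have k3 := hk 3 (by simp [k, kk, cI]; linear_combination ph_sq)
  rw [hS] at hR
  generalize ∑ w ∈ S, w = z at *
  obtain ⟨a, b, c, d⟩ := z
  simp [k, kk] at k0 k2 k3
  subst k0 k2
  have hd : d = b * ph := by linear_combination ph * k3 - d * ph_sq
  have hb : 0 < b := by have := hP.1; simp only [hd] at this; exact pos_of_mul_pos_left this hp.le
  have := hR.smul (show 0 < (b * (ph + 1))⁻¹ by positivity)
  have e : yy 4 = (b * (ph + 1))⁻¹ • ((0, b, 0, d) : V) := by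
    rw [yy, h0]
    simp [r, cI, hd]
    constructor <;> field_simp
  rwa [e]

lemma ctr_B (j : Fin 5) : Ctr (B j) (yy j) := by
  classical
  have hp := ph_pos
  have h := ph_sq
  have n01 := ne01; have n02 := ne02; have n03 := ne03
  have n12 := ne12; have n13 := ne13; have n23 := ne23
  have hW : B 3 ⊆ W := by
    rintro w (rfl | rfl | rfl | rfl)
    exacts [v0_mem, v1_mem, v2_mem, v3_mem]
  have key : ∀ (S : Finset V) (z : V) (t : ℝ), ↑S ⊆ B 3 → 0 < t → ∑ w ∈ S, w = t • z → v0 ∈ S →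
      Ctr S ((Q z v0)⁻¹ • z) := fun S z t h1 h2 h3 h4 =>
    ctr_clique S (h1.trans hW) (fun a ha b hb => clique3 a (h1 ha) b (h1 hb)) h2 h3 h4
  fin_cases j
  · simpa [B, yy, r] using key {v0} v0 1 (by simp [B]) one_pos (by simp) (by simp)
  · simpa [B, yy, r] using key {v0, v1} (0, 0, 0, 1) (2 * ph) (by simp [B, Set.insert_subset_iff])
      (by positivity) (by rw [Finset.sum_pair n01]; simp [v0, v1]; ring) (by simp)
  · simpa [B, yy, r] using key {v0, v1, v2} (0, 1, ph, 3 * ph + 1) 1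
      (by simp [B, Set.insert_subset_iff]) one_pos
      (by rw [Finset.sum_insert (by simp [*]), Finset.sum_pair n12]; simp [v0, v1, v2]; ring)
      (by simp)
  · simpa [B, yy, r] using key {v0, v1, v2, v3} cT (2 * ph)
      (by simp [B]) (by positivity)
      (by rw [Finset.sum_insert (by simp [*]), Finset.sum_insert (by simp [*]), Finset.sum_pair n23]
          simp [v0, v1, v2, v3, cT]
          exact ⟨by ring, by linear_combination (-2) * h⟩)
      (by simp)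
  · exact ctr_B4

end Pool.Agent.Lib.MP_95e952_co
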