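import Mathlib

/-!
Arithmetic model of the hyperbolic Coxeter group of the tetrahedral-icosahedral honeycomb.
-/

namespace Pool.Agent.Lib.MP_95e952_co

abbrev V : Type := ℝ × ℝ × ℝ × ℝ

noncomputable def ph : ℝ := (1 + √5) / 2

lemma ph_sq : ph ^ 2 = ph + 1 := by
  have : √5 ^ 2 = 5 := Real.sq_sqrt (by norm_num)
  unfold ph; nlinarith

lemma ph_gt : 1.618 < ph := by
  have : 2.236 < √5 := Real.lt_sqrt_of_sq_lt (by norm_num)
  unfold ph; linarith

lemma ph_lt : ph < 1.619 := by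
  have : √5 < 2.237 := (Real.sqrt_lt' (by norm_num)).2 (by norm_num)
  unfold ph; linarith

lemma ph_pos : 0 < ph := by linarith [ph_gt]

lemma ps_sq : (1 - ph) ^ 2 = (1 - ph) + 1 := by linear_combination ph_sq

def QQ (g : ℝ) (x y : V) : ℝ :=
  x.2.2.2 * y.2.2.2 - g * (x.1 * y.1 + x.2.1 * y.2.1 + x.2.2.1 * y.2.2.1)

noncomputable def kk (g : ℝ) (i : Fin 4) (x : V) : ℝ :=
  ![x.1, x.2.1, x.2.2.1, ((g - 1) * x.2.2.2 - x.1 - x.2.1 - g * x.2.2.1) / 2] i

def nn (g : ℝ) (i : Fin 4) : V := ![(-2, 0, 0, 0), (0, -2, 0, 0), (0, 0, -2, 0), (1, 1, g, 1)] i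

noncomputable def rf (g : ℝ) (i : Fin 4) (x : V) : V := x + kk g i x • nn g i

lemma QQ_comm (g : ℝ) (x y : V) : QQ g x y = QQ g y x := by unfold QQ; ring

lemma QQ_nn {g : ℝ} (hg : g ^ 2 = g + 1) (i : Fin 4) (x : V) :
    QQ g x (nn g i) = 2 * g * kk g i x := by
  fin_cases i <;> simp [QQ, nn, kk]
  · ring
  · ring
  · ring
  · linear_combination (-x.2.2.2) * hg

lemma kk_nn {g : ℝ} (hg : g ^ 2 = g + 1) (i : Fin 4) : kk g i (nn g i) = -2 := by
  fin_cases i <;> simp [nn, kk]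
  linear_combination (-1 / 2) * hg

lemma kk_add (g : ℝ) (i : Fin 4) (x y : V) : kk g i (x + y) = kk g i x + kk g i y := by
  fin_cases i <;> simp [kk]
  ring

lemma kk_smul (g : ℝ) (i : Fin 4) (t : ℝ) (x : V) : kk g i (t • x) = t * kk g i x := by
  fin_cases i <;> simp [kk]
  ring

lemma QQ_add (g : ℝ) (x x' y : V) : QQ g (x + x') y = QQ g x y + QQ g x' y := by
  simp [QQ]; ring

lemma QQ_smul (g t : ℝ) (x y : V) : QQ g (t • x) y = t * QQ g x y := by
  simp [QQ]; ring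

lemma QQ_rf_left {g : ℝ} (hg : g ^ 2 = g + 1) (i : Fin 4) (x y : V) :
    QQ g (rf g i x) y = QQ g x y + 2 * g * kk g i x * kk g i y := by
  rw [rf, QQ_add, QQ_smul, QQ_comm g (nn g i), QQ_nn hg]; ring

lemma kk_rf {g : ℝ} (hg : g ^ 2 = g + 1) (i : Fin 4) (x : V) : kk g i (rf g i x) = -kk g i x := by
  rw [rf, kk_add, kk_smul, kk_nn hg]; ring

lemma QQ_rf {g : ℝ} (hg : g ^ 2 = g + 1) (i : Fin 4) (x y : V) :
    QQ g (rf g i x) (rf g i y) = QQ g x y := by
  rw [QQ_rf_left hg, kk_rf hg, QQ_comm, QQ_rf_left hg, QQ_comm]; ring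

lemma rf_rf {g : ℝ} (hg : g ^ 2 = g + 1) (i : Fin 4) (x : V) : rf g i (rf g i x) = x := by
  conv_lhs => rw [rf, kk_rf hg]
  rw [rf]; simp

/-- The Lorentzian form, linear in the second slot. -/
noncomputable def Q (y : V) : V →ₗ[ℝ] ℝ where
  toFun x := QQ ph x y
  map_add' _ _ := QQ_add _ _ _ _
  map_smul' _ _ := QQ_smul _ _ _ _

lemma Q_def (y x : V) : Q y x =
    x.2.2.2 * y.2.2.2 - ph * (x.1 * y.1 + x.2.1 * y.2.1 + x.2.2.1 * y.2.2.1) := rfl

lemma Q_comm (x y : V) : Q x y = Q y x := QQ_comm _ _ _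

noncomputable def k (i : Fin 4) : V →ₗ[ℝ] ℝ where
  toFun x := kk ph i x
  map_add' _ _ := kk_add _ _ _ _
  map_smul' _ _ := kk_smul _ _ _ _

noncomputable def sl (i : Fin 4) : V →ₗ[ℝ] V where
  toFun x := rf ph i x
  map_add' x x' := by simp only [rf, kk_add, add_smul]; abel
  map_smul' t x := by simp only [rf, kk_smul, RingHom.id_apply, smul_add, mul_smul]

/-- The four generating reflections. -/
noncomputable def s (i : Fin 4) : V ≃ₗ[ℝ] V := LinearEquiv.ofInvolutive (sl i) (rf_rf ph_sq i)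

lemma s_def (i : Fin 4) (x : V) : s i x = rf ph i x := rfl

lemma s_s (i : Fin 4) (x : V) : s i (s i x) = x := rf_rf ph_sq i x

lemma s_inv (i : Fin 4) : (s i)⁻¹ = s i := by
  rw [inv_eq_iff_mul_eq_one]; ext1 x; exact s_s i x

lemma Q_s (i : Fin 4) (x y : V) : Q y (s i x) = Q y x + 2 * ph * k i x * k i y :=
  QQ_rf_left ph_sq i x y

lemma s0 (a b c d : ℝ) : s 0 (a, b, c, d) = (-a, b, c, d) := by
  simp [s_def, rf, kk, nn]; ring
lemma s1 (a b c d : ℝ) : s 1 (a, b, c, d) = (a, -b, c, d) := by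
  simp [s_def, rf, kk, nn]; ring
lemma s2 (a b c d : ℝ) : s 2 (a, b, c, d) = (a, b, -c, d) := by
  simp [s_def, rf, kk, nn]; ring
lemma s3 (a b c d t : ℝ) (h : (ph - 1) * d - a - b - ph * c = 2 * t) :
    s 3 (a, b, c, d) = (a + t, b + t, c + t * ph, d + t) := by
  simp [s_def, rf, kk, nn, h]

/-- The group generated by the four reflections. -/
inductive G : (V ≃ₗ[ℝ] V) → Prop
  | one : G 1
  | step (γ : V ≃ₗ[ℝ] V) (i : Fin 4) : G γ → G (γ * s i)

lemma G.gen (i : Fin 4) : G (s i) := by simpa using G.step 1 i G.one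

lemma G.mul {a b : V ≃ₗ[ℝ] V} (ha : G a) (hb : G b) : G (a * b) := by
  induction hb with
  | one => simpa using ha
  | step γ i _ ih => rw [← mul_assoc]; exact G.step _ _ ih

lemma G.inv {a : V ≃ₗ[ℝ] V} (ha : G a) : G a⁻¹ := by
  induction ha with
  | one => simpa using G.one
  | step γ i _ ih => rw [mul_inv_rev, s_inv]; exact (G.gen i).mul ih

lemma G.symm {a : V ≃ₗ[ℝ] V} (ha : G a) : G a.symm := ha.inv

lemma G.Q {a : V ≃ₗ[ℝ] V} (ha : G a) (x y : V) : Q (a y) (a x) = Q y x := by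
  induction ha generalizing x y with
  | one => rfl
  | step γ i _ ih => exact (ih _ _).trans (QQ_rf ph_sq i x y)

lemma G.Q' {a : V ≃ₗ[ℝ] V} (ha : G a) (x y : V) : MP_95e952_co.Q (a y) x = MP_95e952_co.Q y (a.symm x) := by
  rw [← ha.Q (a.symm x) y]; simp

/-- The open positive cone. -/
def Pos (x : V) : Prop := 0 < x.2.2.2 ∧ 0 < Q x x

lemma Pos.bound {p y : V} (hp : Pos p) (hy : Pos y) : Q p p * y.2.2.2 ≤ 2 * p.2.2.2 * Q p y := by
  obtain ⟨a, b, c, d⟩ := p
  obtain ⟨a', b', c', d'⟩ := y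
  obtain ⟨h1, -⟩ := hp
  obtain ⟨h3, h4⟩ := hy
  simp only [Q_def] at *
  have := ph_pos
  refine le_of_mul_le_mul_left ?_ h3
  have h5 : 0 ≤ ph * ((a * d' - a' * d) ^ 2 + (b * d' - b' * d) ^ 2 + (c * d' - c' * d) ^ 2) := by
    positivity
  have h6 := mul_pos h4 (mul_pos h1 h1)
  nlinarith

lemma Pos.Q_pos {p y : V} (hp : Pos p) (hy : Pos y) : 0 < Q p y := by
  have := hp.bound hy
  have h := mul_pos hp.2 hy.1
  have := hp.1
  by_contra hc
  nlinarith

lemma Pos.add {p y : V} (hp : Pos p) (hy : Pos y) : Pos (p + y) := by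
  refine ⟨add_pos hp.1 hy.1, ?_⟩
  rw [map_add, Q_comm _ p, Q_comm _ y, map_add, map_add]
  have := hp.2; have := hy.2; have := hp.Q_pos hy; have := hy.Q_pos hp
  linarith

lemma Pos.smul {p : V} (hp : Pos p) {t : ℝ} (ht : 0 < t) : Pos (t • p) := by
  refine ⟨mul_pos ht hp.1, ?_⟩
  rw [map_smul, Q_comm, map_smul]
  exact mul_pos ht (mul_pos ht hp.2)

lemma Pos.s {p : V} (hp : Pos p) (i : Fin 4) : Pos (s i p) := by
  refine ⟨?_, by rw [(G.gen i).Q]; exact hp.2⟩
  have h : (MP_95e952_co.s i p).2.2.2 = Q (MP_95e952_co.s i (0, 0, 0, 1)) p := by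
    rw [← (G.gen i).Q, s_s]; simp [Q_def]
  rw [h]
  refine Pos.Q_pos ⟨?_, ?_⟩ hp
  · have := ph_gt
    fin_cases i <;> simp [s_def, rf, kk, nn]
    linarith
  · rw [(G.gen i).Q]; simp [Q_def]

lemma G.pos {a : V ≃ₗ[ℝ] V} (ha : G a) {p : V} (hp : Pos p) : Pos (a p) := by
  induction ha generalizing p with
  | one => exact hp
  | step γ i _ ih => exact ih (hp.s i)

lemma orth {x z : V} (hx : 0 < Q x x) (h : Q x z = 0) (hz : 0 ≤ Q z z) : z = 0 := by
  obtain ⟨a, b, c, d⟩ := x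
  obtain ⟨a', b', c', d'⟩ := z
  simp only [Q_def] at *
  have hp := ph_pos
  have h1 : (d' * d) ^ 2 ≤ ph * (a * a + b * b + c * c) * (ph * (a' * a' + b' * b' + c' * c')) := by
    have : d' * d = ph * (a' * a + b' * b + c' * c) := by linarith
    rw [this]
    have h5 : 0 ≤ ph ^ 2 * ((a * b' - a' * b) ^ 2 + (b * c' - b' * c) ^ 2 + (c * a' - c' * a) ^ 2) := by
      positivity
    nlinarith
  have h2 : 0 ≤ ph * (a * a + b * b + c * c) := by
    have := mul_self_nonneg a; have := mul_self_nonneg b; have := mul_self_nonneg c; positivity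
  have h3 : 0 ≤ ph * (a' * a' + b' * b' + c' * c') := by
    have := mul_self_nonneg a'; have := mul_self_nonneg b'; have := mul_self_nonneg c'; positivity
  have h4 : d' * d' = 0 := by
    by_contra hne
    have : 0 < d' * d' := lt_of_le_of_ne (mul_self_nonneg _) (Ne.symm hne)
    nlinarith
  have h5 : a' * a' + b' * b' + c' * c' ≤ 0 := by
    by_contra hc
    have := mul_pos hp (not_le.1 hc)
    linarith
  have ha : a' = 0 := by nlinarith [mul_self_nonneg a', mul_self_nonneg b', mul_self_nonneg c']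
  have hb : b' = 0 := by nlinarith [mul_self_nonneg a', mul_self_nonneg b', mul_self_nonneg c']
  have hc : c' = 0 := by nlinarith [mul_self_nonneg a', mul_self_nonneg b', mul_self_nonneg c']
  simp [ha, hb, hc, mul_self_eq_zero.1 h4]

lemma unit_eq {x y : V} (hx : Pos x) (hy : Pos y) (h1 : Q x x = 1) (h2 : Q y y = 1)
    (h : Q x y ≤ 1) : x = y := by
  have hp := hx.Q_pos hy
  have h3 : y - Q x y • x = 0 := by
    refine orth hx.2 (by simp [h1]) ?_
    rw [map_sub, map_smul, Q_comm _ y, Q_comm _ x, map_sub, map_sub, map_smul, map_smul, h1, h2,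
      Q_comm y x]
    simp only [smul_eq_mul]
    nlinarith
  have h4 : y = Q x y • x := sub_eq_zero.1 h3
  generalize Q x y = t at *
  rw [h4, map_smul, Q_comm, map_smul, h1] at h2
  simp only [smul_eq_mul] at h2
  have h6 : t = 1 := by nlinarith
  rw [h4, h6, one_smul]

end Pool.Agent.Lib.MP_95e952_co
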