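import Mathlib

namespace Pool.Agent.Lib.MP_95e952_co

/-- Euclidean 3-space. -/
abbrev E3 : Type := EuclideanSpace ℝ (Fin 3)

/-- A convex 3-polytope: the convex hull of finitely many points, with nonempty interior. -/
def IsPolytope (P : Set E3) : Prop :=
  (∃ S : Finset E3, P = convexHull ℝ (S : Set E3)) ∧ (interior P).Nonempty

/-- A locally finite face-to-face tiling of Euclidean 3-space by convex 3-polytopes. The faces of
a polytope are its exposed subsets (the empty set and the polytope itself included). -/
structure IsLFC (T : Set (Set E3)) : Prop where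
  polytope : ∀ P ∈ T, IsPolytope P
  cover : ⋃₀ T = Set.univ
  disjoint : ∀ P ∈ T, ∀ P' ∈ T, P ≠ P' → Disjoint (interior P) (interior P')
  faceToFace : ∀ P ∈ T, ∀ P' ∈ T, IsExposed ℝ P (P ∩ P') ∧ IsExposed ℝ P' (P ∩ P')
  locallyFinite : ∀ C : Set E3, IsCompact C → {P ∈ T | (P ∩ C).Nonempty}.Finite

/-- The elements of the face lattice: the faces of the tiles, together with the empty set and the
whole space. -/
def IsFace (T : Set (Set E3)) (F : Set E3) : Prop :=
  F = ∅ ∨ F = Set.univ ∨ ∃ P ∈ T, IsExposed ℝ P F

/-- The face lattice, ordered by inclusion; the empty set is its least element and the whole space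
its greatest element. -/
abbrev FaceLattice (T : Set (Set E3)) : Type := {F : Set E3 // IsFace T F}

/-- The equivalence relation `R` has exactly two classes. -/
def TwoClasses {α : Type} (R : α → α → Prop) : Prop := ∃ a b, ¬ R a b ∧ ∀ c, R a c ∨ R b c

/-- The automorphism group of the face lattice has exactly two orbits on flags. -/
def CombTwoOrbit (T : Set (Set E3)) : Prop :=
  TwoClasses fun Φ Ψ : Flag (FaceLattice T) =>
    ∃ e : FaceLattice T ≃o FaceLattice T, Flag.map e Φ = Ψ

/-- The group of isometries mapping the tiling to itself has exactly two orbits on flags. -/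
def GeomTwoOrbit (T : Set (Set E3)) : Prop :=
  TwoClasses fun Φ Ψ : Flag (FaceLattice T) =>
    ∃ g : E3 ≃ᵢ E3, (fun P => g '' P) '' T = T ∧
      (fun F : FaceLattice T => g '' F.1) '' Φ = (fun F : FaceLattice T => F.1) '' Ψ

end Pool.Agent.Lib.MP_95e952_co
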