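import Pool.Agent.Lib.MP_95e952_co.Cells

namespace Pool.Agent.Lib.MP_95e952_co

variable {A A' : Set V} {p q y y' c c' : V} {γ : V ≃ₗ[ℝ] V}

lemma B_mono {i j : Fin 5} (hi : i ≤ 2) (h : i ≤ j) : B i ⊆ B j := by
  have h1 : B 0 ⊆ B 1 := by simp [B]
  have h2 : B 1 ⊆ B 2 := by simp [B, Set.insert_subset_iff]
  have h3 : B 2 ⊆ B 3 := by simp [B, Set.insert_subset_iff]
  have h4 := B2_sub
  fin_cases i <;> fin_cases j <;> simp at hi h <;>
    first | exact le_rfl | exact h1 | exact h2 | exact h3 | exact h4 | exact h1.trans h2 | exact h2.trans h3 | exact h2.trans h4 | exact h1.trans (h2.trans h3) | exact h1.trans (h2.trans h4)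

lemma v0_B (j : Fin 5) : v0 ∈ B j := B_mono (i := 0) (by decide) (Fin.zero_le _) rfl

lemma pos_r (j : Fin 5) : Pos (r j) := by
  have := ph_pos
  fin_cases j
  · exact pos_v0
  · exact ⟨by simp [r], by simp [r, Q_def]⟩
  · exact ⟨by simp [r]; linarith, by simp [r, Q_def]; nlinarith [ph_sq]⟩
  · exact pos_cT
  · exact pos_cI

lemma ri_r (j : Fin 5) : RI (B j) (r j) := by
  have h := (pos_r j).Q_pos pos_v0
  have := (ctr_B j).ri.smul h
  rwa [yy, smul_smul, mul_inv_cancel₀ h.ne', one_smul] at this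

lemma Ch.dec (hp : Ch p) : ∃ j : Fin 5, 3 ≤ j ∧ ∃ a b c d : ℝ, 0 ≤ a ∧ 0 ≤ b ∧ 0 ≤ c ∧ 0 ≤ d ∧
    p = a • r 0 + b • r 1 + c • r 2 + d • r j := by
  obtain ⟨x, y, z, t⟩ := p
  have h0 : 0 ≤ x := hp 0
  have h1 : 0 ≤ y := hp 1
  have h2 : 0 ≤ z := hp 2
  have h3 : 0 ≤ ((ph - 1) * t - x - y - ph * z) / 2 := hp 3
  have := ph_gt
  have h := ph_sq
  by_cases hc : ph * y ≤ z
  · refine ⟨3, le_rfl, x, ph * ((ph - 1) * t - x - y - ph * z), y, z - ph * y, h0,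
      mul_nonneg (by linarith) (by linarith), h1, by linarith, ?_⟩
    simp [r, v0, cT]
    exact ⟨by ring, by linear_combination (z - t + y) * h⟩
  · refine ⟨4, by decide, x, ph * ((ph - 1) * t - x - y - ph * z), (ph - 1) * z,
      y - (ph - 1) * z, h0, mul_nonneg (by linarith) (by linarith),
      mul_nonneg (by linarith) h2, by nlinarith, ?_⟩
    simp [r, v0, cI]
    exact ⟨by linear_combination (-z) * h, by linear_combination (-z - t) * h⟩

lemma Ch.cn (hp : Ch p) : ∃ j : Fin 5, 3 ≤ j ∧ Cn (B j) p := by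
  obtain ⟨j, hj, a, b, c, d, ha, hb, hc, hd, rfl⟩ := hp.dec
  have key : ∀ i : Fin 5, i ≤ 2 → Cn (B j) (r i) := fun i hi =>
    (ri_r i).1.mono (B_mono hi (by omega))
  exact ⟨j, hj, ((((key 0 (by decide)).smul ha).add ((key 1 (by decide)).smul hb)).add
    ((key 2 (by decide)).smul hc)).add ((ri_r j).1.smul hd)⟩

lemma Ch.ri (hp : Ch p) (h0 : p ≠ 0) : ∃ j, RI (B j) p := by
  obtain ⟨j, hj, a, b, c, d, ha, hb, hc, hd, rfl⟩ := hp.dec
  have key : ∀ i j : Fin 5, i ≤ 2 → i ≤ j → Cn (B j) (r i) := fun i j hi hj =>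
    (ri_r i).1.mono (B_mono hi hj)
  rcases hd.eq_or_lt with rfl | hd
  · rcases hc.eq_or_lt with rfl | hc
    · rcases hb.eq_or_lt with rfl | hb
      · rcases ha.eq_or_lt with rfl | ha
        · simp at h0
        · exact ⟨0, by simpa using (ri_r 0).smul ha⟩
      · exact ⟨1, by simpa using ((ri_r 1).smul hb).add ((key 0 1 (by decide) (by decide)).smul ha)⟩
    · exact ⟨2, by simpa using ((ri_r 2).smul hc).add (((key 0 2 (by decide) (by decide)).smul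
        ha).add ((key 1 2 (by decide) (by decide)).smul hb))⟩
  · exact ⟨j, ((ri_r j).smul hd).add ((((key 0 j (by decide) (by omega)).smul ha).add
      ((key 1 j (by decide) (by omega)).smul hb)).add ((key 2 j (by decide) (by omega)).smul hc))⟩

/-- Vertex sets of proper faces. -/
def Fc (A : Set V) : Prop := ∃ γ, G γ ∧ ∃ j, A = γ '' B j

/-- Vertex sets of tiles, with their centres. -/
def Tl (A : Set V) (c : V) : Prop := ∃ γ, G γ ∧ ∃ j, 3 ≤ j ∧ A = γ '' B j ∧ c = γ (yy j)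

lemma Tl.ctr (h : Tl A c) : Ctr A c := by
  obtain ⟨γ, hγ, j, -, rfl, rfl⟩ := h; exact (ctr_B j).map hγ

lemma Tl.fc (h : Tl A c) : Fc A := by obtain ⟨γ, hγ, j, -, rfl, rfl⟩ := h; exact ⟨γ, hγ, j, rfl⟩

lemma Tl.map (h : Tl A c) (hγ : G γ) : Tl (γ '' A) (γ c) := by
  obtain ⟨δ, hδ, j, hj, rfl, rfl⟩ := h
  exact ⟨γ * δ, hγ.mul hδ, j, hj, by rw [Set.image_image]; rfl, rfl⟩

lemma Fc.ctr (h : Fc A) : ∃ y, Ctr A y := by
  obtain ⟨γ, hγ, j, rfl⟩ := h; exact ⟨_, (ctr_B j).map hγ⟩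

lemma Fc.map (h : Fc A) (hγ : G γ) : Fc (γ '' A) := by
  obtain ⟨δ, hδ, j, rfl⟩ := h
  exact ⟨γ * δ, hγ.mul hδ, j, by rw [Set.image_image]; rfl⟩

lemma fc_B (j : Fin 5) : Fc (B j) := ⟨1, G.one, j, by simp⟩

lemma Fc.tile (h : Fc A) : ∃ A' c, Tl A' c ∧ A ⊆ A' := by
  obtain ⟨γ, hγ, j, rfl⟩ := h
  by_cases hj : 3 ≤ j
  · exact ⟨_, _, ⟨γ, hγ, j, hj, rfl, rfl⟩, le_rfl⟩
  · exact ⟨_, _, ⟨γ, hγ, 3, le_rfl, rfl, rfl⟩, Set.image_mono (B_mono (by omega) (by omega))⟩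

lemma B_finite (j : Fin 5) : (B j).Finite := by
  fin_cases j
  · simp [B]
  · simp [B]
  · simp [B]
  · simp [B]
  · exact B4_finite

lemma Fc.finite (h : Fc A) : A.Finite := by
  obtain ⟨γ, -, j, rfl⟩ := h; exact (B_finite j).image _

lemma Fc.nonempty (h : Fc A) : A.Nonempty := by
  obtain ⟨γ, -, j, rfl⟩ := h; exact ⟨_, v0, v0_B j, rfl⟩

lemma Pos.ne (hp : Pos p) : p ≠ 0 := by rintro rfl; exact lt_irrefl _ hp.1

lemma exists_face (hp : Pos p) : ∃ A, Fc A ∧ RI A p := by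
  obtain ⟨γ, hγ, h⟩ := exists_chamber hp
  obtain ⟨j, hj⟩ := h.ri (hγ.pos hp).ne
  exact ⟨_, ⟨γ.symm, hγ.symm, j, rfl⟩, by simpa using hj.map γ.symm⟩

lemma exists_tile (hp : Pos p) : ∃ A c, Tl A c ∧ Cn A p := by
  obtain ⟨γ, hγ, h⟩ := exists_chamber hp
  obtain ⟨j, hj, h⟩ := h.cn
  exact ⟨_, _, ⟨γ.symm, hγ.symm, j, hj, rfl, rfl⟩, by simpa using h.map γ.symm⟩

/-- The convex polyhedron whose boundary carries the honeycomb. -/
def K (p : V) : Prop := Pos p ∧ ∀ A c, Tl A c → 1 ≤ Q c p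

lemma Tl.mem_hull (h : Tl A c) : p ∈ convexHull ℝ A ↔ K p ∧ Q c p = 1 := by
  constructor
  · intro hp
    refine convexHull_min (t := {p | K p ∧ Q c p = 1}) (fun w hw => ?_) ?_ hp
    · exact ⟨⟨W.pos (h.ctr.sub hw), fun A' c' h' => h'.ctr.ge _ (h.ctr.sub hw)⟩, h.ctr.one hw⟩
    · rintro x ⟨⟨hx, hx1⟩, hx2⟩ y ⟨⟨hy, hy1⟩, hy2⟩ a b ha hb hab
      refine ⟨⟨?_, fun A' c' h' => ?_⟩, ?_⟩
      · rcases ha.eq_or_lt with rfl | ha
        · rw [zero_add] at hab; simpa [hab] using hy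
        rcases hb.eq_or_lt with rfl | hb
        · rw [add_zero] at hab; simpa [hab] using hx
        exact (hx.smul ha).add (hy.smul hb)
      · rw [map_add, map_smul, map_smul, smul_eq_mul, smul_eq_mul]
        nlinarith [hx1 _ _ h', hy1 _ _ h']
      · rw [map_add, map_smul, map_smul, hx2, hy2]; simpa using hab
  · rintro ⟨⟨hp, hK⟩, h1⟩
    obtain ⟨A', c', h', hc⟩ := exists_tile hp
    refine ((hc.restrict (Q c - Q c') (fun w hw => ?_) ?_).mono ?_).hull (Q c)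
      (fun w hw => h.ctr.one hw) h1
    · simp only [LinearMap.sub_apply, h'.ctr.one hw, sub_nonneg]; exact h.ctr.ge _ (h'.ctr.sub hw)
    · simp only [LinearMap.sub_apply, h1, sub_nonpos]; exact hK _ _ h'
    · rintro w ⟨hw, h2⟩
      simp only [LinearMap.sub_apply, h'.ctr.one hw, sub_eq_zero] at h2
      exact (h.ctr.eq w (h'.ctr.sub hw)).1 h2

lemma yy3 : yy 3 = (2 * ph + 1)⁻¹ • cT := by
  have : Q (r 3) v0 = 2 * ph + 1 := by simp [r, Q_def, cT, v0]; linear_combination ph_sq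
  rw [yy, this]; rfl

lemma yy4 : yy 4 = (ph + 1)⁻¹ • cI := by
  have : Q (r 4) v0 = ph + 1 := (B2_sub (Or.inl rfl)).2
  rw [yy, this]; rfl

lemma small (hp : Pos p) (h : Q p p ≤ 1 / 2) : ∃ A c, Tl A c ∧ Q c p < 1 := by
  obtain ⟨γ, hγ, hc⟩ := exists_chamber hp
  refine ⟨_, _, ⟨γ.symm, hγ.symm, 3, le_rfl, rfl, rfl⟩, ?_⟩
  rw [hγ.symm.Q', LinearEquiv.symm_symm, yy3, Q_smul_left]
  rw [← hγ.Q] at h
  have h4 := (hγ.pos hp).1
  generalize γ p = q at *
  obtain ⟨x, y, z, t⟩ := q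
  have h0 : 0 ≤ x := hc 0
  have h1 : 0 ≤ y := hc 1
  have h2 : 0 ≤ z := hc 2
  have h3 : 0 ≤ ((ph - 1) * t - x - y - ph * z) / 2 := hc 3
  have g1 := ph_gt
  have g2 := ph_lt
  have g3 := ph_sq
  rw [inv_mul_lt_one₀ (by positivity)]
  simp only [Q_def, cT] at h h4 ⊢
  have e0 : (ph - 1) * t ≤ 0.619 * t := mul_le_mul_of_nonneg_right (by linarith) h4.le
  have e0' : 1 * z ≤ ph * z := mul_le_mul_of_nonneg_right (by linarith) h2
  have e1 : x + y + z ≤ 0.619 * t := by linarith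
  have e2 : x * x + y * y + z * z ≤ (0.619 * t) ^ 2 := by
    have := pow_le_pow_left₀ (by positivity) e1 2
    linarith [mul_nonneg h0 h1, mul_nonneg h1 h2, mul_nonneg h0 h2]
  have e3 : ph * (x * x + y * y + z * z) ≤ 1.619 * (0.619 * t) ^ 2 :=
    mul_le_mul g2.le e2 (by positivity) (by norm_num)
  have e4 : t < 1.2 := lt_of_pow_lt_pow_left₀ 2 (by norm_num) (by linarith)
  have e5 : t * (ph + 1) ≤ t * 2.619 := mul_le_mul_of_nonneg_left (by linarith) h4.le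
  linarith

lemma centers_finite (R : ℝ) : {c : V | (∃ A, Tl A c) ∧ c.2.2.2 ≤ R}.Finite := by
  have hp := ph_pos
  have h1 := (orbit_finite lat_cT pos_cT ((2 * ph + 1) * R)).image fun c => (2 * ph + 1)⁻¹ • c
  have h2 := (orbit_finite lat_cI pos_cI ((ph + 1) * R)).image fun c => (ph + 1)⁻¹ • c
  refine (h1.union h2).subset ?_
  rintro c ⟨⟨A, γ, hγ, j, hj, -, rfl⟩, hc⟩
  obtain rfl | rfl : j = 3 ∨ j = 4 := by omega
  · rw [yy3, map_smul] at hc ⊢
    refine Or.inl ⟨_, ⟨⟨γ, hγ, rfl⟩, ?_⟩, rfl⟩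
    rwa [← inv_mul_le_iff₀ (by positivity)]
  · rw [yy4, map_smul] at hc ⊢
    refine Or.inr ⟨_, ⟨⟨γ, hγ, rfl⟩, ?_⟩, rfl⟩
    rwa [← inv_mul_le_iff₀ (by positivity)]

lemma tiles_finite (R : ℝ) : {A : Set V | ∃ c, Tl A c ∧ c.2.2.2 ≤ R}.Finite := by
  refine ((centers_finite R).image fun c => {w ∈ W | Q c w = 1}).subset ?_
  rintro A ⟨c, h, hc⟩
  exact ⟨c, ⟨⟨A, h⟩, hc⟩, Set.ext fun w => ⟨fun hw => (h.ctr.eq w hw.1).1 hw.2,
    fun hw => ⟨h.ctr.sub hw, h.ctr.one hw⟩⟩⟩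

lemma Tl.face (h : Tl A c) (l : V →ₗ[ℝ] ℝ) : Fc {w ∈ A | ∀ w' ∈ A, l w' ≤ l w} := by
  obtain ⟨S, hS⟩ := (h.fc.finite.subset (Set.sep_subset A fun w => ∀ w' ∈ A, l w' ≤ l w)).exists_finset_coe
  obtain ⟨w0, hw0, h0⟩ := Set.exists_max_image A l h.fc.finite h.fc.nonempty
  have hm : ∀ w, w ∈ S ↔ w ∈ A ∧ ∀ w' ∈ A, l w' ≤ l w := fun w => by
    rw [← Finset.mem_coe, hS]; rfl
  have hP := Pos.sum S ⟨w0, (hm _).2 ⟨hw0, h0⟩⟩ (fun w => w)
    fun w hw => W.pos (h.ctr.sub ((hm _).1 hw).1)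
  have hR := RI.sum S
  obtain ⟨A', h', hR'⟩ := exists_face hP
  obtain ⟨y, hy⟩ := h'.ctr
  have h1 : A' ⊆ A := h.ctr.subset hy (hR.1.mono fun w hw => ((hm _).1 hw).1) hR'
  have h2 : (S : Set V) ⊆ A' := fun w hw => by
    have e1 := hR'.1.nonneg (Q c - Q y) fun w hw => by simp [hy.one hw, h.ctr.one (h1 hw)]
    have e2 := hR.zero (Q y - Q c) (fun w hw => by
      have := ((hm _).1 hw).1
      simp only [LinearMap.sub_apply, h.ctr.one this, sub_nonneg]; exact hy.ge _ (h.ctr.sub this))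
      (by simp only [LinearMap.sub_apply] at e1 ⊢; linarith) w hw
    have := ((hm _).1 hw).1
    simp only [LinearMap.sub_apply, h.ctr.one this, sub_eq_zero] at e2
    exact (hy.eq w (h.ctr.sub this)).1 e2
  have h3 : A' ⊆ S := fun w hw => by
    have e1 := hR.1.nonneg (l - l w0 • Q c) fun w hw => by
      have := (hm _).1 hw
      simpa [h.ctr.one this.1] using this.2 w0 hw0
    have e2 := hR'.zero (l w0 • Q c - l) (fun w hw => by
      simpa [h.ctr.one (h1 hw)] using h0 w (h1 hw))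
      (by simp only [LinearMap.sub_apply] at e1 ⊢; linarith) w hw
    simp only [LinearMap.sub_apply, LinearMap.smul_apply, h.ctr.one (h1 hw), smul_eq_mul,
      mul_one, sub_eq_zero] at e2
    exact (hm _).2 ⟨h1 hw, fun w' hw' => e2 ▸ h0 w' hw'⟩
  rw [← hS, h2.antisymm h3]
  exact h'

lemma sign_lemma (h : Ctr A y) (h' : Ctr A' y') (hs : A ⊆ A') (i : Fin 4) :
    0 ≤ k i y * k i y' := by
  by_contra hc
  push Not at hc
  have h0 : k i y ≠ 0 := by rintro h0; simp [h0] at hc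
  have h0' : k i y' ≠ 0 := by rintro h0; simp [h0] at hc
  set q := (k i y' ^ 2) • y + (-(k i y * k i y')) • y' with hq
  have hR : RI A' q := (h'.ri.smul (by linarith)).add ((h.ri.1.mono hs).smul (sq_nonneg _))
  have hk : k i q = 0 := by rw [hq, map_add, map_smul, map_smul]; simp only [smul_eq_mul]; ring
  have hfix : s i q = q := by
    have : kk ph i q = 0 := hk
    rw [s_def, rf, this]; simp
  have hR' := hR.map (s i)
  rw [hfix] at hR'
  have h2 := h'.map (G.gen i)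
  have he : A' = s i '' A' := h'.unique h2 hR hR'
  rw [← he] at h2
  have e1 := h'.ri.1.nonneg (Q y' - Q (s i y')) fun w hw => by simp [h'.one hw, h2.one hw]
  rw [LinearMap.sub_apply, Q_comm (s i y'), Q_s] at e1
  have := mul_pos ph_pos (mul_self_pos.2 h0')
  nlinarith

lemma chain_lemma (S : Set (Set V)) (hS : S.Finite) (hF : ∀ A ∈ S, Fc A)
    (hc : IsChain (· ⊆ ·) S) : ∃ γ, G γ ∧ ∀ A ∈ S, ∃ j, γ '' A = B j := by
  rcases S.eq_empty_or_nonempty with rfl | hne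
  · exact ⟨1, G.one, by simp⟩
  obtain ⟨T, rfl⟩ := hS.exists_finset_coe
  have : ∀ A, ∃ y, Fc A → Ctr A y := fun A => by
    by_cases h : Fc A
    · obtain ⟨y, hy⟩ := h.ctr; exact ⟨y, fun _ => hy⟩
    · exact ⟨0, fun h' => absurd h' h⟩
  choose f hf using this
  have hP := Pos.sum T hne f fun A hA => (hf A (hF A hA)).pos
  obtain ⟨γ, hγ, hC⟩ := exists_chamber hP
  refine ⟨γ, hγ, fun A hA => ?_⟩
  have h1 := fun A hA => (hf A (hF A hA)).map hγ
  have h2 : Ch (γ (f A)) := fun i => by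
    by_contra hn
    push Not at hn
    have h3 : ∀ A' ∈ T, k i (γ (f A')) ≤ 0 := fun A' hA' => by
      have : 0 ≤ k i (γ (f A)) * k i (γ (f A')) := by
        rcases hc.total hA hA' with h | h
        · exact sign_lemma (h1 _ hA) (h1 _ hA') (Set.image_mono h) i
        · rw [mul_comm]
          exact sign_lemma (h1 _ hA') (h1 _ hA) (Set.image_mono h) i
      nlinarith
    have h4 := hC i
    rw [map_sum, map_sum] at h4
    have := Finset.sum_lt_sum (g := fun _ => (0 : ℝ)) h3 ⟨A, hA, hn⟩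
    simp only [Finset.sum_const_zero] at this
    linarith
  obtain ⟨j, hj⟩ := h2.ri (h1 A hA).pos.ne
  exact ⟨j, (h1 A hA).unique (ctr_B j) (h1 A hA).ri hj⟩

end Pool.Agent.Lib.MP_95e952_co
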