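import Pool.Agent.Lib.MP_95e952_co.Rigid

namespace Pool.Agent.Lib.MP_95e952_co

open scoped RealInnerProductSpace

lemma gram_zero (x : Fin 4 → E3) : (Matrix.gram ℝ x).det = 0 := by
  by_contra h
  have := (Matrix.det_gram_ne_zero_iff_linearIndependent.1 h).fintype_card_le_finrank
  simp at this

lemma inner_dist (o a b : E3) :
    ⟪a - o, b - o⟫ = (dist a o ^ 2 + dist b o ^ 2 - dist a b ^ 2) / 2 := by
  have h : a - b = (a - o) - (b - o) := by abel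
  rw [dist_eq_norm a o, dist_eq_norm b o, dist_eq_norm a b, h, norm_sub_sq_real (a - o)]
  ring

lemma orth4 (a b c d : E3) (h1 : ⟪a, b⟫ = 0) (h2 : ⟪a, c⟫ = 0) (h3 : ⟪a, d⟫ = 0)
    (h4 : ⟪b, c⟫ = 0) (h5 : ⟪b, d⟫ = 0) (h6 : ⟪c, d⟫ = 0) :
    ⟪a, a⟫ * ⟪b, b⟫ * ⟪c, c⟫ * ⟪d, d⟫ = 0 := by
  have := gram_zero ![a, b, c, d]
  have e : Matrix.gram ℝ ![a, b, c, d] = Matrix.diagonal ![⟪a, a⟫, ⟪b, b⟫, ⟪c, c⟫, ⟪d, d⟫] := by
    ext i j
    fin_cases i <;> fin_cases j <;>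
      simp [Matrix.gram_apply, h1, h2, h3, h4, h5, h6, real_inner_comm a, real_inner_comm b c,
        real_inner_comm b d, real_inner_comm c d]
  rw [e, Matrix.det_diagonal, Fin.prod_univ_four] at this
  exact this

lemma pent (a b c d : E3) {L D : ℝ} (h0 : ⟪a, a⟫ = L) (h1 : ⟪b, b⟫ = L) (h2 : ⟪c, c⟫ = L)
    (h3 : ⟪d, d⟫ = L) (h4 : ⟪a, b⟫ = L / 2) (h5 : ⟪b, c⟫ = L / 2) (h6 : ⟪c, d⟫ = L / 2)
    (h7 : ⟪a, c⟫ = D) (h8 : ⟪b, d⟫ = D) (h9 : ⟪a, d⟫ = D) :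
    (5 * L ^ 2 + 2 * L * D - 4 * D ^ 2) * (L ^ 2 + 2 * L * D - 4 * D ^ 2) = 0 := by
  have := gram_zero ![a, b, c, d]
  have e : Matrix.gram ℝ ![a, b, c, d] =
      !![⟪a, a⟫, ⟪a, b⟫, ⟪a, c⟫, ⟪a, d⟫; ⟪b, a⟫, ⟪b, b⟫, ⟪b, c⟫, ⟪b, d⟫;
        ⟪c, a⟫, ⟪c, b⟫, ⟪c, c⟫, ⟪c, d⟫; ⟪d, a⟫, ⟪d, b⟫, ⟪d, c⟫, ⟪d, d⟫] := by
    ext i j
    fin_cases i <;> fin_cases j <;> rfl
  rw [e, real_inner_comm a b, real_inner_comm a c, real_inner_comm a d, real_inner_comm b c,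
    real_inner_comm b d, real_inner_comm c d, h0, h1, h2, h3, h4, h5, h6, h7, h8, h9] at this
  simp [Matrix.det_succ_row_zero, Fin.sum_univ_succ, Fin.succAbove] at this
  linear_combination 16 * this

lemma final_alg {l x y : ℝ} (hl : 0 < l)
    (t1 : l * (2 * (5 * l - x - y)) * (2 * (x + y - l)) * (2 * (l - x + y)) = 0)
    (t2 : l * (2 * (5 * l - x - y)) * (2 * (x + y - l)) * (2 * (l + x - y)) = 0)
    (t3 : l * (2 * (5 * l - x - y)) * (2 * (l - x + y)) * (2 * (l + x - y)) = 0)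
    (t4 : l * (2 * (x + y - l)) * (2 * (l - x + y)) * (2 * (l + x - y)) = 0)
    (hp : (5 * l ^ 2 + 2 * l * (l - x / 2) - 4 * (l - x / 2) ^ 2) *
      (l ^ 2 + 2 * l * (l - x / 2) - 4 * (l - x / 2) ^ 2) = 0) : False := by
  have hx : x = 0 ∨ x = l ∨ x = 2 * l ∨ x = 3 * l := by
    simp only [mul_eq_zero, hl.ne', false_or, OfNat.ofNat_ne_zero] at t1 t2 t3 t4
    rcases t1 with (t1 | t1) | t1 <;> rcases t2 with (t2 | t2) | t2 <;>
      rcases t3 with (t3 | t3) | t3 <;> rcases t4 with (t4 | t4) | t4 <;>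
      first | (left; linarith) | (right; left; linarith) | (right; right; left; linarith) | (right; right; right; linarith)
  have : l ^ 4 ≠ 0 := by positivity
  rcases hx with h | h | h | h <;> rw [h] at hp <;> apply this
  · linear_combination (-1 / 3) * hp
  · linear_combination (1 / 5) * hp
  · linear_combination (1 / 5) * hp
  · linear_combination (-1 / 3) * hp

lemma no_euclid (P : V → E3) (hP : ∀ i, ∃ g : E3 ≃ᵢ E3, ∀ w ∈ W, P (s i w) = g (P w))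
    (hne : P v0 ≠ P v1) : False := by
  have hd : ∀ i, ∀ a ∈ W, ∀ b ∈ W, ∀ a' b', s i a = a' → s i b = b' →
      dist (P a') (P b') = dist (P a) (P b) := by
    rintro i a ha b hb _ _ rfl rfl
    obtain ⟨g, hg⟩ := hP i
    rw [hg a ha, hg b hb, g.dist_eq]
  have m0 := v0_mem; have m1 := v1_mem; have m2 := v2_mem; have m3 := v3_mem
  have n2 := u2_mem; have n4 := u4_mem
  set u3 : V := (0, -1, -ph, ph + 1)
  set u5 : V := (ph, ph + 1, -1, 2 * ph + 1)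
  have a0 : s 3 v0 = v0 := by rw [v0, s3 _ _ _ _ 0 (by linear_combination ph_sq)]; simp
  have a3 : s 3 v3 = v3 := by rw [v3, s3 _ _ _ _ 0 (by ring)]; simp
  have a2 : s 3 v2 = v1 := by rw [← s3_v1, s_s]
  have a5 : s 3 u5 = u5 := by
    simp only [u5]; rw [s3 _ _ _ _ 0 (by linear_combination 2 * ph_sq)]; simp
  have b0 : s 2 v0 = v0 := by simp [v0, s2]
  have b1 : s 2 v1 = v1 := by simp [v1, s2]
  have b3 : s 2 v3 = u3 := by simp [v3, s2, u3]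
  have b4 : s 2 u4 = u5 := by simp [u4, s2, u5]
  have b5 : s 2 u2 = v2 := by simp [u2, s2, v2]
  have n5 : u5 ∈ W := b4 ▸ (G.gen 2).W n4
  have c0 : s 1 v0 = v0 := by simp [v0, s1]
  have c3 : s 1 v3 = v2 := by simp [v3, v2, s1]
  have c4 : s 1 u2 = u3 := by simp [u2, u3, s1]
  have d2 : s 0 v2 = v2 := by simp [v2, s0]
  have d3 : s 0 v3 = v3 := by simp [v3, s0]
  obtain ⟨L, e01⟩ : ∃ L, dist (P v0) (P v1) = L := ⟨_, rfl⟩
  obtain ⟨D, f22⟩ : ∃ D, dist (P v2) (P u2) = D := ⟨_, rfl⟩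
  obtain ⟨S, g32⟩ : ∃ S, dist (P v3) (P u2) = S := ⟨_, rfl⟩
  have hL : 0 < L := e01 ▸ dist_pos.2 hne
  have e02 := (hd 3 _ m0 _ m1 _ _ a0 s3_v1).trans e01
  have e12 := (hd 0 _ m0 _ m2 _ _ s0_v0 d2).trans e02
  have e03 := (hd 1 _ m0 _ m2 _ _ c0 s1_v2).trans e02
  have e13 := (hd 0 _ m0 _ m3 _ _ s0_v0 d3).trans e03
  have e23 := (hd 3 _ m1 _ m3 _ _ s3_v1 a3).trans e13
  have x02 := (hd 2 _ m0 _ m2 _ _ b0 s2_v2).trans e02
  have x12 := (hd 2 _ m1 _ m2 _ _ b1 s2_v2).trans e12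
  have x03 := (hd 2 _ m0 _ m3 _ _ b0 b3).trans e03
  have x13 := (hd 2 _ m1 _ m3 _ _ b1 b3).trans e13
  have x23 := (hd 2 _ m2 _ m3 _ _ s2_v2 b3).trans e23
  have f33 := (hd 1 _ m2 _ n2 _ _ s1_v2 c4).trans f22
  have g23 := (hd 1 _ m3 _ n2 _ _ c3 c4).trans g32
  have y04 := (hd 3 _ m0 _ n2 _ _ a0 s3_u2).trans x02
  have y24 := (hd 3 _ m1 _ n2 _ _ s3_v1 s3_u2).trans x12
  have y14 := (hd 3 _ m2 _ n2 _ _ a2 s3_u2).trans f22
  have y15 := (hd 2 _ m1 _ n4 _ _ b1 b4).trans y14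
  have y25 := (hd 3 _ m1 _ n5 _ _ s3_v1 a5).trans y15
  have z24 := (hd 2 _ n2 _ n4 _ _ b5 b4).symm.trans y25
  generalize P v0 = p at *
  generalize P v1 = q at *
  generalize P v2 = a at *
  generalize P v3 = b at *
  generalize P u2 = c at *
  generalize P u3 = d at *
  generalize P u4 = t at *
  have hp := pent (c - p) (q - p) (a - p) (t - p) (L := L ^ 2) (D := L ^ 2 - D ^ 2 / 2)
    (by rw [inner_dist, dist_comm c p, x02]; simp) (by rw [inner_dist, dist_comm q p, e01]; simp)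
    (by rw [inner_dist, dist_comm a p, e02]; simp) (by rw [inner_dist, dist_comm t p, y04]; simp)
    (by rw [inner_dist, dist_comm c p, dist_comm q p, dist_comm c q, x02, e01, x12]; ring)
    (by rw [inner_dist, dist_comm q p, dist_comm a p, e01, e02, e12]; ring)
    (by rw [inner_dist, dist_comm a p, dist_comm t p, e02, y04, y24]; ring)
    (by rw [inner_dist, dist_comm c p, dist_comm a p, dist_comm c a, x02, e02, f22]; ring)
    (by rw [inner_dist, dist_comm q p, dist_comm t p, e01, y04, y14]; ring)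
    (by rw [inner_dist, dist_comm c p, dist_comm t p, x02, y04, z24]; ring)
  have i1 : ⟪q - p, q - p⟫ = L ^ 2 := by rw [inner_dist, dist_comm q p, e01]; simp
  have i2 : ⟪a - p, a - p⟫ = L ^ 2 := by rw [inner_dist, dist_comm a p, e02]; simp
  have i3 : ⟪b - p, b - p⟫ = L ^ 2 := by rw [inner_dist, dist_comm b p, e03]; simp
  have i4 : ⟪c - p, c - p⟫ = L ^ 2 := by rw [inner_dist, dist_comm c p, x02]; simp
  have i5 : ⟪d - p, d - p⟫ = L ^ 2 := by rw [inner_dist, dist_comm d p, x03]; simp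
  have j2 : ⟪q - p, a - p⟫ = L ^ 2 / 2 := by
    rw [inner_dist, dist_comm q p, dist_comm a p, e01, e02, e12]; ring
  have j3 : ⟪q - p, b - p⟫ = L ^ 2 / 2 := by
    rw [inner_dist, dist_comm q p, dist_comm b p, e01, e03, e13]; ring
  have j4 : ⟪q - p, c - p⟫ = L ^ 2 / 2 := by
    rw [inner_dist, dist_comm q p, dist_comm c p, e01, x02, x12]; ring
  have j5 : ⟪q - p, d - p⟫ = L ^ 2 / 2 := by
    rw [inner_dist, dist_comm q p, dist_comm d p, e01, x03, x13]; ring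
  have k1 : ⟪a - p, b - p⟫ = L ^ 2 / 2 := by
    rw [inner_dist, dist_comm a p, dist_comm b p, e02, e03, e23]; ring
  have k2 : ⟪a - p, c - p⟫ = L ^ 2 - D ^ 2 / 2 := by
    rw [inner_dist, dist_comm a p, dist_comm c p, e02, x02, f22]; ring
  have k3 : ⟪a - p, d - p⟫ = L ^ 2 - S ^ 2 / 2 := by
    rw [inner_dist, dist_comm a p, dist_comm d p, e02, x03, g23]; ring
  have k4 : ⟪b - p, c - p⟫ = L ^ 2 - S ^ 2 / 2 := by
    rw [inner_dist, dist_comm b p, dist_comm c p, e03, x02, g32]; ring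
  have k5 : ⟪b - p, d - p⟫ = L ^ 2 - D ^ 2 / 2 := by
    rw [inner_dist, dist_comm b p, dist_comm d p, e03, x03, f33]; ring
  have k6 : ⟪c - p, d - p⟫ = L ^ 2 / 2 := by
    rw [inner_dist, dist_comm c p, dist_comm d p, x02, x03, x23]; ring
  generalize q - p = q at *
  generalize a - p = a at *
  generalize b - p = b at *
  generalize c - p = c at *
  generalize d - p = d at *
  have j2' := real_inner_comm q a ▸ j2; have j3' := real_inner_comm q b ▸ j3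
  have j4' := real_inner_comm q c ▸ j4; have j5' := real_inner_comm q d ▸ j5
  have k1' := real_inner_comm a b ▸ k1; have k2' := real_inner_comm a c ▸ k2
  have k3' := real_inner_comm a d ▸ k3; have k4' := real_inner_comm b c ▸ k4
  have k5' := real_inner_comm b d ▸ k5; have k6' := real_inner_comm c d ▸ k6
  set z1 := a + b + c + d - q - q
  set z2 := a + b - c - d
  set z3 := a - b + c - d
  set z4 := a - b - c + d
  have o : ⟪q, z1⟫ = 0 ∧ ⟪q, z2⟫ = 0 ∧ ⟪q, z3⟫ = 0 ∧ ⟪q, z4⟫ = 0 ∧ ⟪z1, z2⟫ = 0 ∧ ⟪z1, z3⟫ = 0 ∧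
      ⟪z1, z4⟫ = 0 ∧ ⟪z2, z3⟫ = 0 ∧ ⟪z2, z4⟫ = 0 ∧ ⟪z3, z4⟫ = 0 ∧
      ⟪z1, z1⟫ = 2 * (5 * L ^ 2 - D ^ 2 - S ^ 2) ∧ ⟪z2, z2⟫ = 2 * (D ^ 2 + S ^ 2 - L ^ 2) ∧
      ⟪z3, z3⟫ = 2 * (L ^ 2 - D ^ 2 + S ^ 2) ∧ ⟪z4, z4⟫ = 2 * (L ^ 2 + D ^ 2 - S ^ 2) := by
    simp only [z1, z2, z3, z4, inner_add_left, inner_add_right, inner_sub_left, inner_sub_right,
      i1, i2, i3, i4, i5, j2, j3, j4, j5, k1, k2, k3, k4, k5, k6, j2', j3', j4', j5', k1', k2',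
      k3', k4', k5', k6']
    refine ⟨?_, ?_, ?_, ?_, ?_, ?_, ?_, ?_, ?_, ?_, ?_, ?_, ?_, ?_⟩ <;> ring
  obtain ⟨o1, o2, o3, o4, o5, o6, o7, o8, o9, o10, w1, w2, w3, w4⟩ := o
  have t1 := orth4 q z1 z2 z3 o1 o2 o3 o5 o6 o8
  have t2 := orth4 q z1 z2 z4 o1 o2 o4 o5 o7 o9
  have t3 := orth4 q z1 z3 z4 o1 o3 o4 o6 o7 o10
  have t4 := orth4 q z2 z3 z4 o2 o3 o4 o8 o9 o10
  rw [i1] at t1 t2 t3 t4
  rw [w1] at t1 t2 t3
  rw [w2] at t1 t2 t4
  rw [w3] at t1 t3 t4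
  rw [w4] at t2 t3 t4
  exact final_alg (by positivity) t1 t2 t3 t4 hp

end Pool.Agent.Lib.MP_95e952_co
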