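import Pool.Agent.Lib.MP_95e952_co.Tiling

namespace Pool.Agent.Lib.MP_95e952_co

variable {A A' : Set V} {p q y y' c c' : V} {γ : V ≃ₗ[ℝ] V}

/-- Vertex sets of all elements of the face lattice. -/
def Ls (A : Set V) : Prop := A = ∅ ∨ A = W ∨ Fc A

abbrev LL : Type := {A : Set V // Ls A}

lemma Ls.sub (h : Ls A) : A ⊆ W := by
  rcases h with rfl | rfl | h
  · simp
  · exact le_rfl
  · obtain ⟨y, hy⟩ := h.ctr; exact hy.sub

lemma fc_single {w : V} (hw : w ∈ W) : Fc {w} := by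
  obtain ⟨γ, hγ, rfl⟩ := hw
  exact ⟨γ, hγ, 0, by simp [B]⟩

lemma Ls.mem_of_pr (h : Ls A) {w : V} (hw : w ∈ W) (hp : pr w ∈ pr '' convexHull ℝ A) : w ∈ A := by
  obtain ⟨q, hq, e⟩ := hp
  rcases h with rfl | rfl | h
  · simp at hq
  · exact hw
  obtain ⟨A', c, h', hs⟩ := h.tile
  obtain ⟨A'', c', h'', hs'⟩ := (fc_single hw).tile
  have h1 := h'.mem_hull.1 (convexHull_mono hs hq)
  have h2 := h''.mem_hull.1 (subset_convexHull ℝ _ (hs' rfl))
  obtain rfl := h1.1.eq_of_pr h2.1 h' h'' h1.2 h2.2 e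
  by_contra hn
  have h3 : q ∈ {p | 2 * ph + 1 ≤ Q q p} :=
    convexHull_min (fun a ha => W.Q_W hw (h'.ctr.sub (hs ha)) fun e => hn (e ▸ ha))
      (convex_halfSpace_ge (Q q).isLinear _) hq
  have := W.norm hw
  have := ph_pos
  simp only [Set.mem_ofPred_eq] at h3
  linarith

lemma Tl.hull_face (h : Tl A c) (f : V →ₗ[ℝ] ℝ) (hf : ∀ w ∈ A, 0 ≤ f w) :
    (∀ p ∈ convexHull ℝ A, 0 ≤ f p) ∧
      {p ∈ convexHull ℝ A | f p = 0} = convexHull ℝ {w ∈ A | f w = 0} := by
  have h1 : ∀ p ∈ convexHull ℝ A, Cn A p := fun p hp =>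
    convexHull_min (t := {p | Cn A p}) (fun w hw => Cn.of_mem hw)
      (fun x hx y hy a b ha hb _ => (Cn.smul hx ha).add (Cn.smul hy hb)) hp
  refine ⟨fun p hp => (h1 p hp).nonneg f hf, Set.ext fun p => ⟨fun hp => ?_, fun hp => ?_⟩⟩
  · exact ((h1 p hp.1).restrict f hf hp.2.le).hull (Q c) (fun w hw => h.ctr.one hw.1)
      (h.mem_hull.1 hp.1).2
  · exact ⟨convexHull_mono (Set.sep_subset _ _) hp, convexHull_min (t := {p | f p = 0})
      (fun w hw => hw.2) (convex_hyperplane f.isLinear _) hp⟩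

lemma Ls.face (h : Ls A) : pr '' convexHull ℝ A = ∅ ∨ pr '' convexHull ℝ A = Set.univ ∨
    ∃ P ∈ TT, IsExposed ℝ P (pr '' convexHull ℝ A) := by
  rcases h with rfl | rfl | h
  · simp
  · refine Or.inr (Or.inl (Set.eq_univ_of_forall fun x => ?_))
    obtain ⟨_, ⟨A, c, h, rfl⟩, hx⟩ := TT_cover x
    exact Set.image_mono (convexHull_mono h.ctr.sub) hx
  obtain ⟨A', c, h', hs⟩ := h.tile
  obtain ⟨y, hy⟩ := h.ctr
  obtain ⟨h1, h2⟩ := h'.hull_face (Q y - Q c) fun w hw => by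
    simp only [LinearMap.sub_apply, h'.ctr.one hw, sub_nonneg]; exact hy.ge _ (h'.ctr.sub hw)
  have h3 : {w ∈ A' | (Q y - Q c) w = 0} = A := Set.ext fun w => by
    simp only [LinearMap.sub_apply, Set.mem_ofPred_eq, sub_eq_zero]
    exact ⟨fun hw => (hy.eq w (h'.ctr.sub hw.1)).1 (hw.2.trans (h'.ctr.one hw.1)),
      fun hw => ⟨hs hw, (hy.one hw).trans (h'.ctr.one (hs hw)).symm⟩⟩
  have h4 : {p ∈ convexHull ℝ A' | Q y p = 1} = convexHull ℝ A := by
    rw [← h3, ← h2]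
    ext p
    simp only [LinearMap.sub_apply, Set.mem_ofPred_eq, sub_eq_zero]
    exact and_congr_right fun hp => by rw [(h'.mem_hull.1 hp).2]
  refine Or.inr (Or.inr ⟨_, ⟨A', c, h', rfl⟩, ?_⟩)
  rw [← h4]
  exact h'.exposed fun p hp => by
    have := h1 p hp
    rwa [LinearMap.sub_apply, (h'.mem_hull.1 hp).2, sub_nonneg] at this

noncomputable def toFace (A : LL) : FaceLattice TT := ⟨pr '' convexHull ℝ A.1, A.2.face⟩

lemma toFace_le (A A' : LL) : toFace A ≤ toFace A' ↔ A ≤ A' :=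
  ⟨fun h w hw => A'.2.mem_of_pr (A.2.sub hw) (h ⟨w, subset_convexHull ℝ _ hw, rfl⟩),
    fun h => Set.image_mono (convexHull_mono h)⟩

lemma toFace_surj : Function.Surjective toFace := by
  rintro ⟨F, hF⟩
  suffices ∃ A, Ls A ∧ pr '' convexHull ℝ A = F by
    obtain ⟨A, h, e⟩ := this; exact ⟨⟨A, h⟩, Subtype.ext e⟩
  rcases F.eq_empty_or_nonempty with rfl | hne
  · exact ⟨∅, Or.inl rfl, by simp⟩
  rcases hF with rfl | rfl | ⟨_, ⟨A, c, h, rfl⟩, hF⟩
  · simp at hne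
  · refine ⟨W, Or.inr (Or.inl rfl), Set.eq_univ_of_forall fun x => ?_⟩
    obtain ⟨_, ⟨A, c, h, rfl⟩, hx⟩ := TT_cover x
    exact Set.image_mono (convexHull_mono h.ctr.sub) hx
  obtain ⟨l, rfl⟩ := hF hne
  let L : V →ₗ[ℝ] ℝ := l.toLinearMap ∘ₗ pr
  obtain ⟨w0, hw0, h0⟩ := Set.exists_max_image A L h.fc.finite h.fc.nonempty
  obtain ⟨h1, h2⟩ := h.hull_face (L w0 • Q c - L) fun w hw => by
    simpa [h.ctr.one hw] using h0 w hw
  have h3 : {w ∈ A | (L w0 • Q c - L) w = 0} = {w ∈ A | ∀ w' ∈ A, L w' ≤ L w} := Set.ext fun w =>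
    and_congr_right fun hw => by
      simp only [LinearMap.sub_apply, LinearMap.smul_apply, h.ctr.one hw, smul_eq_mul, mul_one,
        sub_eq_zero]
      exact ⟨fun e w' hw' => e ▸ h0 w' hw', fun e => (e w0 hw0).antisymm (h0 w hw)⟩
  refine ⟨_, Or.inr (Or.inr (h.face L)), ?_⟩
  rw [← h3, ← h2]
  have h4 : ∀ p ∈ convexHull ℝ A, (L w0 • Q c - L) p = l (pr w0) - l (pr p) := fun p hp => by
    simp [(h.mem_hull.1 hp).2, L]
  ext x
  constructor
  · rintro ⟨p, ⟨hp, e⟩, rfl⟩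
    refine ⟨⟨p, hp, rfl⟩, ?_⟩
    rintro _ ⟨q, hq, rfl⟩
    have := h1 q hq
    rw [h4 _ hq] at this
    rw [h4 _ hp] at e
    linarith
  · rintro ⟨⟨p, hp, rfl⟩, e⟩
    refine ⟨p, ⟨hp, le_antisymm ?_ (h1 p hp)⟩, rfl⟩
    rw [h4 _ hp, sub_nonpos]
    exact e _ ⟨w0, subset_convexHull ℝ _ hw0, rfl⟩

/-- The face lattice of the tiling is the lattice of vertex sets. -/
noncomputable def iso : LL ≃o FaceLattice TT :=
  RelIso.ofSurjective (OrderEmbedding.ofMapLEIff toFace toFace_le) toFace_surj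

lemma image_W (hγ : G γ) : γ '' W = W :=
  Set.ext fun w => ⟨by rintro ⟨w, hw, rfl⟩; exact hγ.W hw,
    fun hw => ⟨γ.symm w, hγ.symm.W hw, by simp⟩⟩

lemma Ls.map (h : Ls A) (hγ : G γ) : Ls (γ '' A) := by
  rcases h with rfl | rfl | h
  · exact Or.inl (by simp)
  · exact Or.inr (Or.inl (image_W hγ))
  · exact Or.inr (Or.inr (h.map hγ))

/-- The automorphism of the lattice induced by a group element. -/
def G.aut (hγ : G γ) : LL ≃o LL where
  toFun A := ⟨γ '' A.1, A.2.map hγ⟩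
  invFun A := ⟨γ.symm '' A.1, A.2.map hγ.symm⟩
  left_inv A := Subtype.ext (by simp [Set.image_image])
  right_inv A := Subtype.ext (by simp [Set.image_image])
  map_rel_iff' := Set.image_subset_image_iff γ.injective

lemma Fc.cases (h : Fc A) :
    (∀ a ∈ A, ∀ b ∈ A, a ≠ b → Q a b = 2 * ph + 1) ∨ ∃ γ, G γ ∧ A = γ '' B 4 := by
  obtain ⟨γ, hγ, j, rfl⟩ := h
  by_cases hj : j = 4
  · exact Or.inr ⟨γ, hγ, by rw [hj]⟩
  left
  have : B j ⊆ B 3 := by
    by_cases h3 : j = 3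
    · rw [h3]
    · exact B_mono (by omega) (by omega)
  rintro _ ⟨a, ha, rfl⟩ _ ⟨b, hb, rfl⟩ hab
  rw [hγ.Q]
  exact clique3 a (this ha) b (this hb) fun e => hab (by rw [e])

lemma v3_not : v3 ∉ B 4 := fun h => by
  have := h.2
  simp only [Q_def, v3, cI] at this
  nlinarith [ph_sq, ph_pos]

lemma u2_B4 : u2 ∈ B 4 := ⟨u2_mem, by simp only [Q_def, u2, cI]; nlinarith [ph_sq]⟩
lemma u4_B4 : u4 ∈ B 4 := ⟨u4_mem, by simp only [Q_def, u4, cI]; nlinarith [ph_sq]⟩

lemma u2_not : u2 ∉ B 3 := by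
  have := ph_pos
  simp [B, u2, v0, v1, v2, v3]
  constructor <;> intro <;> linarith

lemma Fc.above (h : Fc A) (hs : B 2 ⊆ A) : A = B 2 ∨ A = B 3 ∨ A = B 4 := by
  have g1 := ph_gt
  have g2 := ph_lt
  have g3 := ph_sq
  have m0 : v0 ∈ A := hs (by simp [B])
  have m1 : v1 ∈ A := hs (by simp [B])
  have m2 : v2 ∈ A := hs (by simp [B])
  rcases h.cases with hq | ⟨γ, hγ, rfl⟩
  · have key : ∀ u ∈ A, u ∉ B 2 → u = v3 := fun u hu hn => by
      simp only [B, Matrix.cons_val, Set.mem_insert_iff, Set.mem_singleton_iff, not_or] at hn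
      have e0 := hq u hu v0 m0 hn.1
      have e1 := hq u hu v1 m1 hn.2.1
      have e2 := hq u hu v2 m2 hn.2.2
      have hW := Ls.sub (Or.inr (Or.inr h)) hu
      have e3 := W.norm hW
      have e4 := W.Q_cI hW
      obtain ⟨a, b, c, d⟩ := u
      simp only [Q_def, v0, v1, v2, cI] at e0 e1 e2 e3 e4
      have ha : a = 0 := by nlinarith
      have hd : d = ph + 1 := by
        apply mul_left_cancel₀ ph_pos.ne'; linear_combination e0 + ph * ha - g3
      subst ha hd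
      have hb : b = ph - ph * c := by
        apply mul_left_cancel₀ ph_pos.ne'; linear_combination -e2 - 0 * g3
      have hc : (c - ph) * ((3 * ph + 1) * c + 1) = 0 := by
        rw [hb] at e3
        linear_combination (-1) * e3 + (-c ^ 2 * (ph + 1) + 2 * c * (ph + 1) - 3 * c - ph) * g3
      rcases mul_eq_zero.1 hc with hc | hc
      · rw [hb, sub_eq_zero.1 hc, v3]
        simp only [Prod.mk.injEq, and_true, true_and]
        linear_combination -g3
      · exfalso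
        have : c < 0 := by nlinarith
        nlinarith
    by_cases h3 : v3 ∈ A
    · refine Or.inr (Or.inl (Set.Subset.antisymm (fun u hu => ?_) ?_))
      · by_cases hu' : u ∈ B 2
        · exact B_mono le_rfl (by decide) hu'
        · rw [key u hu hu']; simp [B]
      · simp [B, Set.insert_subset_iff, m0, m1, m2, h3]
    · exact Or.inl (Set.Subset.antisymm (fun u hu => by_contra fun hn => h3 (key u hu hn ▸ hu)) hs)
  · have key : ∀ w ∈ γ '' B 4, Q (γ cI) w = ph + 1 := by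
      rintro _ ⟨w, hw, rfl⟩; rw [hγ.Q]; exact hw.2
    have e0 := key _ m0
    have e1 := key _ m1
    have e2 := key _ m2
    have e3 : Q (γ cI) (γ cI) = 1 := by rw [hγ.Q, Q_cI]
    have e4 : ph + 1 ≤ Q (γ cI) v3 := by rw [hγ.Q']; exact W.Q_cI (hγ.symm.W v3_mem)
    have e : γ cI = cI := by
      generalize γ cI = u at *
      obtain ⟨a, b, c, d⟩ := u
      simp only [Q_def, v0, v1, v2, v3] at e0 e1 e2 e3 e4
      have ha : a = 0 := by nlinarith
      have hd : d = ph := by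
        apply mul_left_cancel₀ ph_pos.ne'; linear_combination e0 + ph * ha - g3
      subst ha hd
      have hb : b = 1 - ph * c := by
        apply mul_left_cancel₀ ph_pos.ne'; linear_combination -e2 + g3
      have hc : c * ((3 * ph + 1) * c - 2 * (ph + 1)) = 0 := by
        rw [hb] at e3
        linear_combination (-1) * e3 + (-c ^ 2 * (ph + 1) + 2 * c + 1) * g3
      rcases mul_eq_zero.1 hc with hc | hc
      · simp [hb, hc, cI]
      · exfalso
        have : 0.8 < c := by nlinarith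
        nlinarith
    have h4 := (ctr_B 4).map hγ
    rw [yy4, map_smul, e, ← yy4] at h4
    exact Or.inr (Or.inr (Set.ext fun w => ⟨fun hw => ((ctr_B 4).eq w (h4.sub hw)).1 (h4.one hw),
      fun hw => (h4.eq w hw.1).1 ((ctr_B 4).one hw)⟩))

end Pool.Agent.Lib.MP_95e952_co
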