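import Pool.Agent.Lib.MP_95e952_co.Geom

namespace Pool.Agent.Lib.MP_95e952_co

open scoped RealInnerProductSpace

lemma exists_vertex {P F : Set E3} (hP : IsPolytope P) (hF : IsExposed ℝ P F) (hne : F.Nonempty) :
    ∃ x ∈ F, IsExposed ℝ P {x} := by
  classical
  obtain ⟨⟨S, rfl⟩, -⟩ := hP
  obtain ⟨l, rfl⟩ := hF hne
  have hS : S.Nonempty := by
    obtain ⟨x, hx, -⟩ := hne
    simpa using convexHull_nonempty_iff.1 ⟨x, hx⟩
  obtain ⟨w0, hw0, h0⟩ := S.exists_max_image l hS
  obtain ⟨x, hx, h1⟩ := (S.filter fun w => l w = l w0).exists_max_image (fun w => ‖w‖)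
    ⟨w0, by simp [hw0]⟩
  rw [Finset.mem_filter] at hx
  have h2 : ∀ᶠ e in nhdsWithin (0 : ℝ) (Set.Ioi 0), ∀ w ∈ S, w ≠ x →
      l w + e * ⟪x, w⟫ < l x + e * ⟪x, x⟫ := by
    rw [Finset.eventually_all]
    intro w hw
    by_cases h3 : l w = l w0
    · filter_upwards [self_mem_nhdsWithin] with e he hne
      have h4 : ‖w‖ ≤ ‖x‖ := h1 w (by simp [hw, h3])
      have h5 : 0 < ‖x - w‖ ^ 2 := by
        have : x - w ≠ 0 := sub_ne_zero.2 hne.symm
        positivity
      rw [norm_sub_sq_real] at h5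
      have h6 : ⟪x, w⟫ < ⟪x, x⟫ := by
        rw [real_inner_self_eq_norm_sq]; nlinarith [norm_nonneg w]
      have := mul_lt_mul_of_pos_left h6 (show 0 < e from he)
      linarith [hx.2]
    · have h4 : l w < l x := by rw [hx.2]; exact lt_of_le_of_ne (h0 w hw) h3
      have h5 : ∀ᶠ e in nhds (0 : ℝ), l w + e * ⟪x, w⟫ < l x + e * ⟪x, x⟫ :=
        ContinuousAt.eventually_lt (by fun_prop) (by fun_prop) (by simpa using h4)
      filter_upwards [nhdsWithin_le_nhds h5] with e he _ using he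
  obtain ⟨e, he⟩ := h2.exists
  have hxP : x ∈ convexHull ℝ (S : Set E3) := subset_convexHull ℝ _ hx.1
  refine ⟨x, ⟨hxP, fun y hy => ?_⟩, ?_⟩
  · rw [hx.2]
    exact convexHull_min (t := {y | l y ≤ l w0}) h0 (convex_halfSpace_le l.isLinear _) hy
  · rw [← mem_exposedPoints_iff_exposed_singleton]
    refine ⟨hxP, l + e • innerSL ℝ x, fun y hy => ?_⟩
    have key : y ∈ {y | y = x ∨ (l + e • innerSL ℝ x) y < (l + e • innerSL ℝ x) x} := by
      refine convexHull_min (fun w hw => ?_) ?_ hy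
      · by_cases h : w = x
        · exact Or.inl h
        · exact Or.inr (by simpa using he w hw h)
      · generalize l + e • innerSL ℝ x = m
        rintro a ha b hb s t hs ht hst
        rcases hs.eq_or_lt with rfl | hs
        · rw [zero_add] at hst; simpa [hst] using hb
        rcases ht.eq_or_lt with rfl | ht
        · rw [add_zero] at hst; simpa [hst] using ha
        have hm : m x = s * m x + t * m x := by rw [← add_mul, hst, one_mul]
        rcases ha with rfl | ha <;> rcases hb with rfl | hb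
        · exact Or.inl (by rw [← add_smul, hst, one_smul])
        all_goals
          right
          rw [map_add, map_smul, map_smul, smul_eq_mul, smul_eq_mul]
          nlinarith
    rcases key with rfl | h
    · exact ⟨le_rfl, fun _ => rfl⟩
    · exact ⟨h.le, fun h' => absurd h' (not_le.2 h)⟩

lemma exposed_image (g : E3 ≃ᵢ E3) {P F : Set E3} (h : IsExposed ℝ P F) :
    IsExposed ℝ (g '' P) (g '' F) := by
  intro hne
  obtain ⟨l, rfl⟩ := h (Set.image_nonempty.1 hne)
  let a := g.toRealAffineIsometryEquiv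
  let m : E3 →L[ℝ] ℝ := l ∘L (a.linearIsometryEquiv.symm.toContinuousLinearEquiv : E3 →L[ℝ] E3)
  have key : ∀ x y, m (g x) ≤ m (g y) ↔ l x ≤ l y := fun x y => by
    have h1 : a.linearIsometryEquiv (y -ᵥ x) = g y -ᵥ g x := a.map_vsub y x
    have h2 : m (g y - g x) = l (y - x) := by
      rw [← vsub_eq_sub, ← h1]; simp [m]
    rw [map_sub, map_sub] at h2
    constructor <;> intro <;> linarith
  refine ⟨m, Set.ext fun z => ⟨?_, ?_⟩⟩
  · rintro ⟨x, ⟨hx, h1⟩, rfl⟩
    exact ⟨⟨x, hx, rfl⟩, by rintro _ ⟨y, hy, rfl⟩; exact (key _ _).2 (h1 y hy)⟩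
  · rintro ⟨⟨x, hx, rfl⟩, h1⟩
    exact ⟨x, ⟨hx, fun y hy => (key _ _).1 (h1 _ ⟨y, hy, rfl⟩)⟩, rfl⟩

variable {T : Set (Set E3)}

lemma face_image (g : E3 ≃ᵢ E3) (hg : ∀ P ∈ T, g '' P ∈ T) (F : FaceLattice T) :
    g '' F.1 = ∅ ∨ g '' F.1 = Set.univ ∨ ∃ P ∈ T, IsExposed ℝ P (g '' F.1) := by
  rcases F.2 with h | h | ⟨P, hP, h⟩
  · exact Or.inl (by simp [h])
  · exact Or.inr (Or.inl (by rw [h, Set.image_univ, g.surjective.range_eq]))
  · exact Or.inr (Or.inr ⟨_, hg P hP, exposed_image g h⟩)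

lemma exists_orderIso (g : E3 ≃ᵢ E3) (hg : (fun P => g '' P) '' T = T) :
    ∃ σ : FaceLattice T ≃o FaceLattice T, ∀ F, (σ F).1 = g '' F.1 := by
  have h1 : ∀ P ∈ T, g '' P ∈ T := fun P hP => hg ▸ ⟨P, hP, rfl⟩
  have h2 : ∀ P ∈ T, g.symm '' P ∈ T := fun P hP => by
    rw [← hg] at hP
    obtain ⟨P, hP, rfl⟩ := hP
    simpa [Set.image_image] using hP
  exact ⟨{ toFun := fun F => ⟨g '' F.1, face_image g h1 F⟩
           invFun := fun F => ⟨g.symm '' F.1, face_image g.symm h2 F⟩
           left_inv := fun F => Subtype.ext (by simp [Set.image_image])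
           right_inv := fun F => Subtype.ext (by simp [Set.image_image])
           map_rel_iff' := Set.image_subset_image_iff g.injective }, fun _ => rfl⟩

lemma atom_point (hT : IsLFC T) (e : LL ≃o FaceLattice T) (w : V) (hw : w ∈ W) :
    ∃ x, (e (atom w hw)).1 = {x} := by
  have hb : (e bot).1 = ∅ := Set.subset_empty_iff.1
    (show e bot ≤ ⟨∅, Or.inl rfl⟩ from e.le_symm_apply.1 (bot_le _))
  have hne : (e (atom w hw)).1.Nonempty := by
    rw [Set.nonempty_iff_ne_empty]
    intro h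
    have := e.injective (Subtype.ext (h.trans hb.symm))
    exact Set.singleton_ne_empty w (congrArg Subtype.val this)
  obtain ⟨x, hx, P, hP, h⟩ : ∃ x ∈ (e (atom w hw)).1, ∃ P ∈ T, IsExposed ℝ P {x} := by
    rcases (e (atom w hw)).2 with h | h | ⟨P, hP, h⟩
    · exact absurd h hne.ne_empty
    · obtain ⟨P, hP, h0⟩ : (0 : E3) ∈ ⋃₀ T := hT.cover ▸ Set.mem_univ _
      obtain ⟨x, -, hx⟩ := exists_vertex (hT.polytope P hP) (IsExposed.refl P) ⟨0, h0⟩
      exact ⟨x, by rw [h]; trivial, P, hP, hx⟩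
    · obtain ⟨x, hx, h'⟩ := exists_vertex (hT.polytope P hP) h hne
      exact ⟨x, hx, P, hP, h'⟩
  let X : FaceLattice T := ⟨{x}, Or.inr (Or.inr ⟨P, hP, h⟩)⟩
  have h1 : e.symm X ≤ atom w hw := e.symm_apply_le.2 (Set.singleton_subset_iff.2 hx)
  refine ⟨x, ?_⟩
  rcases Set.subset_singleton_iff_eq.1 h1 with h2 | h2
  · have : e.symm X = bot := Subtype.ext h2
    rw [← this, e.apply_symm_apply] at hb
    exact absurd hb (Set.singleton_ne_empty x)
  · have : e.symm X = atom w hw := Subtype.ext h2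
    rw [← this, e.apply_symm_apply]

lemma map_trans {α β γ : Type} [Preorder α] [Preorder β] [Preorder γ] (e : α ≃o β) (e' : β ≃o γ)
    (Φ : Flag α) : Flag.map (e.trans e') Φ = Flag.map e' (Flag.map e Φ) :=
  Flag.ext (by simp [Set.image_image])

lemma map_symm {α β : Type} [Preorder α] [Preorder β] (e : α ≃o β) {Φ : Flag α} {Ψ : Flag β}
    (h : Flag.map e Φ = Ψ) : Flag.map e.symm Ψ = Φ := by
  rw [← h]; exact Flag.ext (by simp [Set.image_image])

theorem TT_comb : CombTwoOrbit TT := by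
  refine ⟨Flag.map iso Φ3, Flag.map iso Φ4, ?_, fun Ψ => ?_⟩
  · rintro ⟨e, he⟩
    refine not_equiv ((iso.trans e).trans iso.symm) ?_
    rw [map_trans, map_trans, he]
    exact map_symm _ rfl
  · obtain ⟨γ, hγ, h | h⟩ := flag_trans (Flag.map iso.symm Ψ)
    · refine Or.inl ⟨(iso.symm.trans hγ.aut.symm).trans iso, ?_⟩
      rw [map_trans, map_trans, map_symm iso rfl, map_symm _ h]
      exact map_symm iso.symm rfl
    · refine Or.inr ⟨(iso.symm.trans hγ.aut.symm).trans iso, ?_⟩
      rw [map_trans, map_trans, map_symm iso rfl, map_symm _ h]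
      exact map_symm iso.symm rfl

theorem not_iso (hT : IsLFC T) (hG : GeomTwoOrbit T) (e : LL ≃o FaceLattice T) : False := by
  classical
  let R : Flag (FaceLattice T) → Flag (FaceLattice T) → Prop := fun Φ Ψ =>
    ∃ (g : E3 ≃ᵢ E3) (σ : FaceLattice T ≃o FaceLattice T), (∀ F, (σ F).1 = g '' F.1) ∧
      Flag.map σ Φ = Ψ
  have hR : ∀ {a b c}, R a b → R a c → R b c := by
    rintro a b c ⟨g, σ, h, h1⟩ ⟨g', σ', h', h2⟩
    refine ⟨g.symm.trans g', σ.symm.trans σ', fun F => ?_, by rw [map_trans, map_symm _ h1, h2]⟩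
    have := h (σ.symm F)
    rw [σ.apply_symm_apply] at this
    rw [OrderIso.trans_apply, h', this, Set.image_image]
    simp
  obtain ⟨a, b, -, hab⟩ := hG
  have hab' : ∀ c, R a c ∨ R b c := fun c => by
    have key : ∀ a : Flag (FaceLattice T), (∃ g : E3 ≃ᵢ E3, (fun P => g '' P) '' T = T ∧
        (fun F : FaceLattice T => g '' F.1) '' a = (fun F : FaceLattice T => F.1) '' c) → R a c := by
      rintro a ⟨g, hg, h⟩
      obtain ⟨σ, hσ⟩ := exists_orderIso g hg
      refine ⟨g, σ, hσ, Flag.ext (Subtype.val_injective.image_injective ?_)⟩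
      rw [Flag.coe_map, Set.image_image, ← h]
      exact Set.image_congr fun F _ => hσ F
    exact (hab c).imp (key a) (key b)
  have hn : ∀ γ (hγ : G γ), ¬ R (Flag.map e (Flag.map hγ.aut Φ3)) (Flag.map e Φ4) := by
    rintro γ hγ ⟨g, σ, -, h⟩
    refine not_equiv (((hγ.aut.trans e).trans σ).trans e.symm) ?_
    rw [map_trans, map_trans, map_trans, h]
    exact map_symm _ rfl
  have hall : ∀ γ (hγ : G γ),
      R (Flag.map e (Flag.map G.one.aut Φ3)) (Flag.map e (Flag.map hγ.aut Φ3)) := fun γ hγ => by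
    rcases hab' (Flag.map e Φ4) with h | h
    · exact hR ((hab' _).resolve_left fun h' => hn _ _ (hR h' h))
        ((hab' _).resolve_left fun h' => hn _ _ (hR h' h))
    · exact hR ((hab' _).resolve_right fun h' => hn _ _ (hR h' h))
        ((hab' _).resolve_right fun h' => hn _ _ (hR h' h))
  choose x hx using atom_point hT e
  let P : V → E3 := fun w => if h : w ∈ W then x w h else 0
  have hP : ∀ w hw, (e (atom w hw)).1 = {P w} := fun w hw => by rw [hx, show P w = x w hw from dif_pos hw]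
  refine no_euclid P (fun i => ?_) fun h => ?_
  · obtain ⟨g, σ, h1, h2⟩ := hall _ (G.gen i)
    refine ⟨g, fun w hw => ?_⟩
    have h3 := rigid ((((G.one.aut.trans e).trans σ).trans e.symm).trans (G.gen i).aut.symm)
      (by rw [map_trans, map_trans, map_trans, map_trans, h2, map_symm e rfl]
          exact map_symm _ rfl) w hw
    have h4 : G.one.aut (atom w hw) = atom w hw := Subtype.ext (by simp [G.aut, atom])
    have h5 : (G.gen i).aut (atom w hw) = atom (s i w) ((G.gen i).W hw) :=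
      Subtype.ext (by simp [G.aut, atom])
    simp only [OrderIso.trans_apply, OrderIso.symm_apply_eq, h4, h5] at h3
    have h6 := congrArg Subtype.val h3
    rw [h1, hP, hP, Set.image_singleton] at h6
    exact (Set.singleton_injective h6).symm
  · have : e (atom v0 v0_mem) = e (atom v1 v1_mem) := Subtype.ext (by rw [hP, hP, h])
    exact ne01 (Set.singleton_injective (congrArg Subtype.val (e.injective this)))

end Pool.Agent.Lib.MP_95e952_co
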