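import Pool.Agent.Lib.MP_95e952_co.Lattice

namespace Pool.Agent.Lib.MP_95e952_co

variable {A A' : Set V} {γ : V ≃ₗ[ℝ] V} {f : V → V}

lemma enc0 : (B 0).encard = 1 := by simp [B]
lemma enc1 : (B 1).encard = 2 := by simp [B, Set.encard_pair ne01]
lemma enc2 : (B 2).encard = 3 := by
  simp only [B, Matrix.cons_val]
  rw [Set.encard_insert_of_notMem (by simp [ne01, ne02]), Set.encard_pair ne12]; rfl
lemma enc3 : (B 3).encard = 4 := by
  simp only [B, Matrix.cons_val]
  rw [Set.encard_insert_of_notMem (by simp [ne01, ne02, ne03]),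
    Set.encard_insert_of_notMem (by simp [ne12, ne13]), Set.encard_pair ne23]; rfl

lemma enc4 : 5 ≤ (B 4).encard := by
  have hp := ph_pos
  have h1 : u2 ∉ B 2 := fun h => u2_not (B_mono le_rfl (by decide) h)
  have h2 : u4 ∉ insert u2 (B 2) := by
    simp [B, u2, u4, v0, v1, v2, hp.ne']
  have : (insert u4 (insert u2 (B 2))).encard = 5 := by
    rw [Set.encard_insert_of_notMem h2, Set.encard_insert_of_notMem h1, enc2]; rfl
  rw [← this]
  exact Set.encard_le_encard (Set.insert_subset u4_B4 (Set.insert_subset u2_B4 B2_sub))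

lemma encW : 5 ≤ W.encard := enc4.trans (Set.encard_le_encard (ctr_B 4).sub)

lemma Fc.triangle {u : V} (h : Fc {v0, v1, u}) (hu : u ∈ B 4) (h0 : u ≠ v0) (h1 : u ≠ v1) :
    u = v2 ∨ u = u2 := by
  have g1 := ph_gt
  have g3 := ph_sq
  rcases h.cases with hq | ⟨γ, hγ, e⟩
  · have e0 := hq u (by simp) v0 (by simp) h0
    have e1 := hq u (by simp) v1 (by simp) h1
    have e3 := W.norm hu.1
    have e4 := hu.2
    obtain ⟨a, b, c, d⟩ := u
    simp only [Q_def, v0, v1, cI] at e0 e1 e3 e4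
    have ha : a = 0 := by nlinarith
    have hd : d = ph + 1 := by
      apply mul_left_cancel₀ ph_pos.ne'; linear_combination e0 + ph * ha - g3
    subst ha hd
    have hb : b = 1 := by
      apply mul_left_cancel₀ ph_pos.ne'; linear_combination -e4 + g3
    subst hb
    have hc : (c - ph) * (c + ph) = 0 := by
      apply mul_left_cancel₀ ph_pos.ne'; linear_combination -e3 - ph * g3
    rcases mul_eq_zero.1 hc with hc | hc
    · exact Or.inl (by rw [sub_eq_zero.1 hc, v2])
    · exact Or.inr (by rw [eq_neg_of_add_eq_zero_left hc, u2])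
  · exfalso
    have h5 : (5 : ℕ∞) ≤ 3 := by
      calc (5 : ℕ∞) ≤ (B 4).encard := enc4
        _ = ({v0, v1, u} : Set V).encard := by rw [e, γ.injective.encard_image]
        _ ≤ 2 + 1 := (Set.encard_insert_le _ _).trans (by
          gcongr
          exact (Set.encard_insert_le _ _).trans (by simp; rfl))
        _ = 3 := by rfl
    exact absurd h5 (by decide)

/-- A map of the vertex set which preserves faces. -/
structure Aut (f : V → V) : Prop where
  inj : Set.InjOn f W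
  maps : Set.MapsTo f W W
  face : ∀ A, Ls A → Ls (f '' A)

lemma Aut.conj (h : Aut f) (hγ : G γ) : Aut (γ.symm ∘ f ∘ γ) where
  inj _ ha _ hb e := γ.injective (h.inj (hγ.W ha) (hγ.W hb) (γ.symm.injective e))
  maps _ ha := hγ.symm.W (h.maps (hγ.W ha))
  face A hA := by
    rw [Set.image_comp, Set.image_comp]
    exact (h.face _ (hA.map hγ)).map hγ.symm

lemma B3_W : B 3 ⊆ W := (ctr_B 3).sub

lemma Aut.fix_u2 (h : Aut f) (h3 : ∀ w ∈ B 3, f w = w) : f u2 = u2 := by
  have hn : f u2 ∉ B 3 := fun hm =>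
    u2_not (h.inj (B3_W hm) u2_mem (h3 _ hm) ▸ hm)
  have h23 : B 2 ⊆ B 3 := B_mono le_rfl (by decide)
  have h4 : f u2 ∈ B 4 := by
    have hs : B 2 ⊆ f '' B 4 := fun w hw => ⟨w, B2_sub hw, h3 w (h23 hw)⟩
    have hm : f u2 ∈ f '' B 4 := ⟨_, u2_B4, rfl⟩
    rcases h.face _ (Or.inr (Or.inr (fc_B 4))) with e | e | e
    · rw [e] at hm; exact hm.elim
    · obtain ⟨w, hw, e'⟩ : v3 ∈ f '' B 4 := e ▸ v3_mem
      rw [← h3 v3 (by simp [B])] at e'
      exact (v3_not (h.inj hw.1 v3_mem e' ▸ hw)).elim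
    · rcases e.above hs with e | e | e <;> rw [e] at hm
      · exact (hn (h23 hm)).elim
      · exact (hn hm).elim
      · exact hm
  have e0 : s 2 '' B 2 = {v0, v1, u2} := by
    simp only [B, Matrix.cons_val, Set.image_insert_eq, Set.image_singleton, s2_v2]
    simp [v0, v1, s2]
  have e1 : f '' {v0, v1, u2} = {v0, v1, f u2} := by
    simp only [Set.image_insert_eq, Set.image_singleton]
    rw [h3 v0 (by simp [B]), h3 v1 (by simp [B])]
  have n0 : f u2 ≠ v0 := fun e => hn (by simp [B, e])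
  have n1 : f u2 ≠ v1 := fun e => hn (by simp [B, e])
  have n2 : f u2 ≠ v2 := fun e => hn (by simp [B, e])
  have := h.face _ (Or.inr (Or.inr ((fc_B 2).map (G.gen 2))))
  rw [e0, e1] at this
  rcases this with e | e | e
  · exact absurd e (Set.insert_nonempty _ _).ne_empty
  · have : v2 ∈ ({v0, v1, f u2} : Set V) := e ▸ v2_mem
    simp [ne02.symm, ne12.symm, n2.symm] at this
  · exact (e.triangle h4 n0 n1).resolve_left n2

lemma s_B3 {i : Fin 4} (hi : i ≠ 2) : ∀ w ∈ B 3, s i w ∈ B 3 := by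
  have a0 : s 3 v0 = v0 := by
    rw [v0, s3 _ _ _ _ 0 (by linear_combination ph_sq)]; simp
  have a3 : s 3 v3 = v3 := by
    rw [v3, s3 _ _ _ _ 0 (by ring)]; simp
  have a2 : s 3 v2 = v1 := by rw [← s3_v1, s_s]
  rintro w (rfl | rfl | rfl | rfl) <;> fin_cases i <;>
    simp [B, a0, a2, a3, s3_v1] at hi ⊢ <;> simp [v0, v1, v2, v3, s0, s1]

lemma Aut.fix_gen (h : Aut f) (h3 : ∀ w ∈ B 3, f w = w) (i : Fin 4) :
    ∀ w ∈ B 3, f (s i w) = s i w := by
  by_cases hi : i = 2
  · subst hi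
    rintro w (rfl | rfl | rfl | rfl)
    · have : s 2 v0 = v0 := by simp [v0, s2]
      rw [this]; exact h3 _ (by simp [B])
    · have : s 2 v1 = v1 := by simp [v1, s2]
      rw [this]; exact h3 _ (by simp [B])
    · rw [s2_v2]; exact h.fix_u2 h3
    · have e : s 2 v3 = s 1 u2 := by simp [v3, u2, s2, s1]
      have := (h.conj (G.gen 1)).fix_u2 fun w hw => by
        simp [h3 _ (s_B3 (i := 1) (by decide) w hw)]
      rw [e]
      simpa [LinearEquiv.symm_apply_eq] using this
  · exact fun w hw => h3 _ (s_B3 hi w hw)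

lemma Aut.fix (h : Aut f) (h3 : ∀ w ∈ B 3, f w = w) : ∀ w ∈ W, f w = w := by
  have key : ∀ γ, G γ → ∀ w ∈ B 3, f (γ w) = γ w := fun γ hγ => by
    induction hγ with
    | one => exact h3
    | step γ i hγ ih =>
      intro w hw
      have := (h.conj hγ).fix_gen (fun w hw => by simp [ih w hw]) i w hw
      simpa [LinearEquiv.symm_apply_eq] using this
  rintro _ ⟨γ, hγ, rfl⟩
  exact key γ hγ v0 (v0_B 3)

/-- The atom attached to a vertex. -/
def atom (w : V) (hw : w ∈ W) : LL := ⟨{w}, Or.inr (Or.inr (fc_single hw))⟩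

def bot : LL := ⟨∅, Or.inl rfl⟩
def top : LL := ⟨W, Or.inr (Or.inl rfl)⟩

lemma bot_le (A : LL) : bot ≤ A := Set.empty_subset _
lemma le_top (A : LL) : A ≤ top := A.2.sub

lemma map_bot (σ : LL ≃o LL) : σ bot = bot :=
  le_antisymm (σ.le_symm_apply.1 (bot_le _)) (bot_le _)

lemma map_top (σ : LL ≃o LL) : σ top = top :=
  le_antisymm (le_top _) (σ.symm_apply_le.1 (le_top _))

lemma map_atom (σ : LL ≃o LL) (w : V) (hw : w ∈ W) : ∃ w' hw', σ (atom w hw) = atom w' hw' := by
  have hne : ∀ (τ : LL ≃o LL) w hw, (τ (atom w hw)).1.Nonempty := fun τ w hw => by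
    rw [Set.nonempty_iff_ne_empty]
    intro e
    have : τ (atom w hw) = τ bot := by rw [map_bot]; exact Subtype.ext e
    exact (Set.singleton_ne_empty w) (congrArg Subtype.val (τ.injective this))
  obtain ⟨w', hw'⟩ := hne σ w hw
  have h1 := (σ (atom w hw)).2.sub hw'
  refine ⟨w', h1, ?_⟩
  have h2 : σ.symm (atom w' h1) ≤ atom w hw := σ.symm_apply_le.2 (Set.singleton_subset_iff.2 hw')
  have h3 : σ.symm (atom w' h1) = atom w hw :=
    Subtype.ext ((hne σ.symm w' h1).subset_singleton_iff.1 h2)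
  rw [← h3, σ.apply_symm_apply]

lemma exists_aut (σ : LL ≃o LL) : ∃ f, Aut f ∧ ∀ A : LL, (σ A).1 = f '' A.1 := by
  classical
  choose g hg hg' using map_atom σ
  let f : V → V := fun w => if h : w ∈ W then g w h else w
  have hf : ∀ w hw, f w = g w hw := fun w hw => dif_pos hw
  have key : ∀ A : LL, (σ A).1 = f '' A.1 := fun A => by
    ext u
    constructor
    · intro hu
      have h1 := (σ A).2.sub hu
      obtain ⟨w, hw, e⟩ := map_atom σ.symm u h1
      have h2 : atom w hw ≤ A := by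
        rw [← e]; exact σ.symm_apply_le.2 (Set.singleton_subset_iff.2 hu)
      refine ⟨w, h2 rfl, ?_⟩
      have h3 := hg' w hw
      rw [← e, σ.apply_symm_apply] at h3
      rw [hf w hw]
      exact (Set.singleton_injective (congrArg Subtype.val h3)).symm
    · rintro ⟨w, hw, rfl⟩
      have h1 := A.2.sub hw
      have h2 : σ (atom w h1) ≤ σ A := σ.monotone (Set.singleton_subset_iff.2 hw)
      rw [hg'] at h2
      rw [hf w h1]
      exact h2 rfl
  refine ⟨f, ⟨fun a ha b hb e => ?_, fun a ha => by rw [hf a ha]; exact hg a ha,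
    fun A hA => key ⟨A, hA⟩ ▸ (σ ⟨A, hA⟩).2⟩, key⟩
  rw [hf a ha, hf b hb] at e
  have : σ (atom a ha) = σ (atom b hb) := by rw [hg', hg']; exact Subtype.ext (by simp [atom, e])
  exact Set.singleton_injective (congrArg Subtype.val (σ.injective this))

/-- The base chains. -/
def FB (j : Fin 5) : Set LL :=
  {A | A.1 = ∅ ∨ A.1 = W ∨ A.1 = B 0 ∨ A.1 = B 1 ∨ A.1 = B 2 ∨ A.1 = B j}

def cell (j : Fin 5) : LL := ⟨B j, Or.inr (Or.inr (fc_B j))⟩

lemma FB_chain {j : Fin 5} (hj : 3 ≤ j) : IsChain (· ≤ ·) (FB j) := by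
  intro A hA A' hA' _
  have h01 : B 0 ⊆ B 1 := B_mono (by decide) (by decide)
  have h12 : B 1 ⊆ B 2 := B_mono (by decide) (by decide)
  have h2j : B 2 ⊆ B j := B_mono le_rfl (by omega)
  have h1 := A.2.sub
  have h2 := A'.2.sub
  show A.1 ⊆ A'.1 ∨ A'.1 ⊆ A.1
  rcases hA with e | e | e | e | e | e <;> rcases hA' with e' | e' | e' | e' | e' | e' <;>
    simp only [e, e'] at h1 h2 ⊢ <;>
    simp [h1, h2, h01, h12, h2j, h01.trans h12, h12.trans h2j, (h01.trans h12).trans h2j]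

lemma not_34 : ¬ B 3 ⊆ B 4 := fun h => v3_not (h (by simp [B]))
lemma not_43 : ¬ B 4 ⊆ B 3 := fun h => u2_not (h u2_B4)

lemma FB_max {j : Fin 5} (hj : 3 ≤ j) : IsMaxChain (· ≤ ·) (FB j) := by
  refine ⟨FB_chain hj, fun t ht hs => hs.antisymm fun A hA => ?_⟩
  have hc : ∀ i, cell i ∈ FB j → A.1 ⊆ B i ∨ B i ⊆ A.1 := fun i hi => ht.total hA (hs hi)
  have c0 := hc 0 (by simp [FB, cell])
  have c1 := hc 1 (by simp [FB, cell])
  have c2 := hc 2 (by simp [FB, cell])
  have cj := hc j (by simp [FB, cell])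
  obtain ⟨A, hL⟩ := A
  simp only [FB, Set.mem_ofPred_eq] at *
  rcases hL with e | e | h
  · exact Or.inl e
  · exact Or.inr (Or.inl e)
  refine Or.inr (Or.inr ?_)
  by_cases d0 : A ⊆ B 0
  · exact Or.inl (h.nonempty.subset_singleton_iff.1 d0)
  have m0 : v0 ∈ A := c0.resolve_left d0 rfl
  have m1 : v1 ∈ A := by
    rcases c1 with c | c
    · by_contra hn
      exact d0 fun w hw => (c hw).resolve_right fun e => hn (Set.mem_singleton_iff.1 e ▸ hw)
    · exact c (by simp [B])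
  by_cases d1 : A ⊆ B 1
  · exact Or.inr (Or.inl (d1.antisymm (by simp [B, Set.insert_subset_iff, m0, m1])))
  have m2 : v2 ∈ A := by
    rcases c2 with c | c
    · by_contra hn
      refine d1 fun w hw => ?_
      rcases c hw with e | e | e
      · exact Or.inl e
      · exact Or.inr e
      · exact (hn (Set.mem_singleton_iff.1 e ▸ hw)).elim
    · exact c (by simp [B])
  refine Or.inr (Or.inr ?_)
  rcases h.above (by simp [B, Set.insert_subset_iff, m0, m1, m2]) with e | e | e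
  · exact Or.inl e
  · obtain rfl | rfl : j = 3 ∨ j = 4 := by omega
    · exact Or.inr e
    · rw [e] at cj; exact (cj.elim not_34 not_43).elim
  · obtain rfl | rfl : j = 3 ∨ j = 4 := by omega
    · rw [e] at cj; exact (cj.elim not_43 not_34).elim
    · exact Or.inr e

def Φ3 : Flag LL := Flag.ofIsMaxChain _ (FB_max (j := 3) le_rfl)
def Φ4 : Flag LL := Flag.ofIsMaxChain _ (FB_max (j := 4) (by decide))

lemma flag_trans (Φ : Flag LL) : ∃ γ, ∃ hγ : G γ, Flag.map hγ.aut Φ = Φ3 ∨ Flag.map hγ.aut Φ = Φ4 := by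
  let S : Set (Set V) := {A | Fc A ∧ ∃ h, (⟨A, h⟩ : LL) ∈ Φ}
  have hc : IsChain (· ⊆ ·) S := by
    rintro A ⟨-, h, hA⟩ A' ⟨-, h', hA'⟩ -
    exact Φ.le_or_le hA hA'
  have hS : S.Finite := by
    refine Set.Finite.of_finite_image (f := Set.encard)
      ((Set.finite_range fun j => (B j).encard).subset ?_) ?_
    · rintro _ ⟨A, ⟨⟨γ, -, j, rfl⟩, -⟩, rfl⟩
      exact ⟨j, (γ.injective.encard_image _).symm⟩
    · intro A hA A' hA' e
      rcases hc.total hA hA' with h | h
      · exact hA.1.finite.eq_of_subset_of_encard_le h e.ge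
      · exact (hA'.1.finite.eq_of_subset_of_encard_le h e.le).symm
  obtain ⟨γ, hγ, h⟩ := chain_lemma S hS (fun A hA => hA.1) hc
  refine ⟨γ, hγ, ?_⟩
  set Ψ := Flag.map hγ.aut Φ
  have h1 : ∀ A ∈ Ψ, A.1 = ∅ ∨ A.1 = W ∨ ∃ j, A.1 = B j := by
    rintro _ ⟨⟨A, hL⟩, hA, rfl⟩
    rcases hL with rfl | rfl | hF
    · exact Or.inl (Set.image_empty _)
    · exact Or.inr (Or.inl (image_W hγ))
    · exact Or.inr (Or.inr (h A ⟨hF, _, hA⟩))
  have h2 : ∀ j, 3 ≤ j → (∀ A ∈ Ψ, ∀ i, 3 ≤ i → A.1 = B i → i = j) → (Ψ : Set LL) = FB j := by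
    intro j hj hi
    refine Ψ.maxChain.2 (FB_chain hj) fun A hA => ?_
    rcases h1 A hA with e | e | ⟨i, e⟩
    · exact Or.inl e
    · exact Or.inr (Or.inl e)
    · by_cases h3 : 3 ≤ i
      · rw [hi A hA i h3 e] at e; simp [FB, e]
      · obtain rfl | rfl | rfl : i = 0 ∨ i = 1 ∨ i = 2 := by omega
        all_goals simp [FB, e]
  by_cases h4 : cell 4 ∈ Ψ
  · refine Or.inr (Flag.ext (h2 4 (by decide) fun A hA i hi e => ?_))
    by_contra hn
    obtain rfl : i = 3 := by omega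
    have : A.1 ⊆ B 4 ∨ B 4 ⊆ A.1 := Ψ.le_or_le hA h4
    rw [e] at this
    exact this.elim not_34 not_43
  · refine Or.inl (Flag.ext (h2 3 le_rfl fun A hA i hi e => ?_))
    by_contra hn
    obtain rfl : i = 4 := by omega
    exact h4 ((Subtype.ext e : A = cell 4) ▸ hA)

lemma not_equiv (σ : LL ≃o LL) : Flag.map σ Φ3 ≠ Φ4 := by
  intro e
  obtain ⟨f, hf, hσ⟩ := exists_aut σ
  have h1 : cell 4 ∈ Φ4 := by show cell 4 ∈ FB 4; simp [FB, cell]
  rw [← e] at h1
  obtain ⟨A, hA, e⟩ := h1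
  have h2 : 5 ≤ A.1.encard := by
    rw [← (hf.inj.mono A.2.sub).encard_image, ← hσ, e]; exact enc4
  rcases hA with h | h | h | h | h | h
  · rw [h] at h2; simp at h2
  · rw [(Subtype.ext h : A = top), map_top] at e
    have e' : W = B 4 := congrArg Subtype.val e
    exact v3_not (e' ▸ v3_mem)
  · rw [h, enc0] at h2; exact absurd h2 (by decide)
  · rw [h, enc1] at h2; exact absurd h2 (by decide)
  · rw [h, enc2] at h2; exact absurd h2 (by decide)
  · rw [h, enc3] at h2; exact absurd h2 (by decide)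

lemma rigid (σ : LL ≃o LL) (e : Flag.map σ Φ3 = Φ3) (w : V) (hw : w ∈ W) :
    σ (atom w hw) = atom w hw := by
  obtain ⟨f, hf, hσ⟩ := exists_aut σ
  have h5 := encW
  have key : ∀ j : Fin 5, j ≤ 3 → f '' B j = B j := fun j hj => by
    have h1 : σ (cell j) ∈ Φ3 := by
      rw [← e]
      refine ⟨cell j, ?_, rfl⟩
      show cell j ∈ FB 3
      obtain rfl | rfl | rfl | rfl : j = 0 ∨ j = 1 ∨ j = 2 ∨ j = 3 := by omega
      all_goals simp [FB, cell]
    have h2 : (σ (cell j)).1.encard = (B j).encard := by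
      rw [hσ]; exact (hf.inj.mono (cell j).2.sub).encard_image
    have h3 : f '' B j = (σ (cell j)).1 := (hσ (cell j)).symm
    rw [h3]
    obtain rfl | rfl | rfl | rfl : j = 0 ∨ j = 1 ∨ j = 2 ∨ j = 3 := by omega
    all_goals
      rcases h1 with h | h | h | h | h | h <;> rw [h] at h2 ⊢ <;> exfalso <;>
        simp only [enc0, enc1, enc2, enc3, Set.encard_empty] at h2 <;>
        first | exact absurd h2 (by decide) | (rw [h2] at h5; exact absurd h5 (by decide))
  have i01 := hf.inj.ne v0_mem v1_mem ne01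
  have i02 := hf.inj.ne v0_mem v2_mem ne02
  have i03 := hf.inj.ne v0_mem v3_mem ne03
  have i12 := hf.inj.ne v1_mem v2_mem ne12
  have i13 := hf.inj.ne v1_mem v3_mem ne13
  have i23 := hf.inj.ne v2_mem v3_mem ne23
  have f0 : f v0 = v0 := by simpa [B] using key 0 (by decide)
  have f1 : f v1 = v1 := by
    have : f v1 ∈ B 1 := key 1 (by decide) ▸ ⟨v1, by simp [B], rfl⟩
    simpa [B, f0 ▸ i01.symm] using this
  have f2 : f v2 = v2 := by
    have : f v2 ∈ B 2 := key 2 (by decide) ▸ ⟨v2, by simp [B], rfl⟩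
    simpa [B, f0 ▸ i02.symm, f1 ▸ i12.symm] using this
  have f3 : f v3 = v3 := by
    have : f v3 ∈ B 3 := key 3 (by decide) ▸ ⟨v3, by simp [B], rfl⟩
    simpa [B, f0 ▸ i03.symm, f1 ▸ i13.symm, f2 ▸ i23.symm] using this
  have := hf.fix (by rintro w (rfl | rfl | rfl | rfl) <;> assumption) w hw
  exact Subtype.ext (by rw [hσ]; simp [atom, this])

end Pool.Agent.Lib.MP_95e952_co
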