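import Pool.Agent.Lib.MP_95e952_co.Defs
import Pool.Agent.Lib.MP_95e952_co.Faces

namespace Pool.Agent.Lib.MP_95e952_co

variable {A A' : Set V} {p q y y' c c' : V} {γ : V ≃ₗ[ℝ] V}

/-- The projection forgetting the time coordinate. -/
noncomputable def pr : V →ₗ[ℝ] E3 where
  toFun p := !₂[p.1, p.2.1, p.2.2.1]
  map_add' p q := by ext i; fin_cases i <;> simp
  map_smul' t p := by ext i; fin_cases i <;> simp

@[simp] lemma pr0 (p : V) : pr p 0 = p.1 := rfl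
@[simp] lemma pr1 (p : V) : pr p 1 = p.2.1 := rfl
@[simp] lemma pr2 (p : V) : pr p 2 = p.2.2.1 := rfl

def lift (x : E3) (t : ℝ) : V := (x 0, x 1, x 2, t)

@[simp] lemma pr_lift (x : E3) (t : ℝ) : pr (lift x t) = x := by ext i; fin_cases i <;> rfl

lemma lift_pr (p : V) : lift (pr p) p.2.2.2 = p := rfl

lemma Q_lift (c : V) (x : E3) (t t' : ℝ) :
    Q c (lift x t) = Q c (lift x t') + (t - t') * c.2.2.2 := by
  simp only [Q_def, lift]; ring

lemma K.eq_of_pr (hp : K p) (hq : K q) (h : Tl A c) (h' : Tl A' c') (h1 : Q c p = 1)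
    (h2 : Q c' q = 1) (e : pr p = pr q) : p = q := by
  have e1 := hq.2 _ _ h
  have e2 := hp.2 _ _ h'
  rw [← lift_pr p, e] at h1 e2 ⊢
  rw [← lift_pr q] at h2 e1
  rw [Q_lift c _ _ p.2.2.2, h1] at e1
  rw [Q_lift c' _ _ q.2.2.2, h2] at e2
  have : p.2.2.2 = q.2.2.2 := by nlinarith [h.ctr.pos.1, h'.ctr.pos.1]
  rw [this, lift_pr]

/-- The tiling of Euclidean space. -/
def TT : Set (Set E3) := {P | ∃ A c, Tl A c ∧ P = pr '' convexHull ℝ A}

lemma exists_functional (hc : c.2.2.2 ≠ 0) (y : V) : ∃ (l : E3 →L[ℝ] ℝ) (a : ℝ),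
    ∀ p, Q c p = 1 → l (pr p) = a - Q y p := by
  let L : E3 →ₗ[ℝ] V :=
    { toFun := fun x => lift x 0
      map_add' := fun x x' => by simp [lift]
      map_smul' := fun t x => by simp [lift] }
  refine ⟨LinearMap.toContinuousLinearMap (((y.2.2.2 / c.2.2.2) • Q c - Q y) ∘ₗ L),
    y.2.2.2 / c.2.2.2, fun p hp => ?_⟩
  have h1 := Q_lift c (pr p) p.2.2.2 0
  have h2 := Q_lift y (pr p) p.2.2.2 0
  rw [lift_pr] at h1 h2
  show y.2.2.2 / c.2.2.2 * Q c (lift (pr p) 0) - Q y (lift (pr p) 0) = _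
  rw [h2, show Q c (lift (pr p) 0) = 1 - (p.2.2.2 - 0) * c.2.2.2 by linarith]
  field_simp
  ring

lemma Tl.exposed (h : Tl A c) (hy : ∀ p ∈ convexHull ℝ A, 1 ≤ Q y p) :
    IsExposed ℝ (pr '' convexHull ℝ A) (pr '' {p ∈ convexHull ℝ A | Q y p = 1}) := by
  rintro ⟨_, p0, ⟨hp0, h0⟩, rfl⟩
  obtain ⟨l, a, hl⟩ := exists_functional h.ctr.pos.1.ne' y
  have hl' : ∀ p ∈ convexHull ℝ A, l (pr p) = a - Q y p := fun p hp => hl p (h.mem_hull.1 hp).2
  refine ⟨l, Set.ext fun x => ⟨?_, ?_⟩⟩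
  · rintro ⟨p, ⟨hp, h1⟩, rfl⟩
    refine ⟨⟨p, hp, rfl⟩, ?_⟩
    rintro _ ⟨q, hq, rfl⟩
    rw [hl' p hp, hl' q hq, h1]
    linarith [hy q hq]
  · rintro ⟨⟨p, hp, rfl⟩, h1⟩
    have := h1 _ ⟨p0, hp0, rfl⟩
    rw [hl' p hp, hl' p0 hp0, h0] at this
    exact ⟨p, ⟨hp, le_antisymm (by linarith) (hy p hp)⟩, rfl⟩

lemma Tl.inter (h : Tl A c) (h' : Tl A' c') : pr '' convexHull ℝ A ∩ pr '' convexHull ℝ A' =
    pr '' {p ∈ convexHull ℝ A | Q c' p = 1} := by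
  ext x
  constructor
  · rintro ⟨⟨p, hp, rfl⟩, q, hq, e⟩
    have h1 := h.mem_hull.1 hp
    have h2 := h'.mem_hull.1 hq
    obtain rfl := h2.1.eq_of_pr h1.1 h' h h2.2 h1.2 e
    exact ⟨q, ⟨hp, h2.2⟩, rfl⟩
  · rintro ⟨p, ⟨hp, h1⟩, rfl⟩
    exact ⟨⟨p, hp, rfl⟩, p, h'.mem_hull.2 ⟨(h.mem_hull.1 hp).1, h1⟩, rfl⟩

lemma TT_face {P P' : Set E3} (hP : P ∈ TT) (hP' : P' ∈ TT) : IsExposed ℝ P (P ∩ P') := by
  obtain ⟨A, c, h, rfl⟩ := hP
  obtain ⟨A', c', h', rfl⟩ := hP'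
  rw [h.inter h']
  exact h.exposed fun p hp => (h.mem_hull.1 hp).1.2 _ _ h'

lemma subset_of_interior {P P' : Set E3} (h : IsExposed ℝ P (P ∩ P')) {x : E3}
    (hx : x ∈ interior P) (hx' : x ∈ interior P') : P ⊆ P' := by
  have hm : x ∈ P ∩ P' := ⟨interior_subset hx, interior_subset hx'⟩
  obtain ⟨l, hl⟩ := h ⟨x, hm⟩
  have hmax : IsLocalMax l x := by
    rw [hl] at hm
    exact Filter.mem_of_superset (mem_interior_iff_mem_nhds.1 hx) hm.2
  have h0 : l = 0 := hmax.hasFDerivAt_eq_zero l.hasFDerivAt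
  intro z hz
  have : z ∈ P ∩ P' := by rw [hl]; exact ⟨hz, by simp [h0]⟩
  exact this.2

noncomputable def r0 (x : E3) : ℝ := √(ph * (x 0 * x 0 + x 1 * x 1 + x 2 * x 2) + 1 / 2)

lemma r0_arg (x : E3) : 0 < ph * (x 0 * x 0 + x 1 * x 1 + x 2 * x 2) + 1 / 2 := by
  have := ph_pos
  have := mul_self_nonneg (x 0); have := mul_self_nonneg (x 1); have := mul_self_nonneg (x 2)
  positivity

lemma r0_pos (x : E3) : 0 < r0 x := Real.sqrt_pos.2 (r0_arg x)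

lemma r0_norm (x : E3) : Q (lift x (r0 x)) (lift x (r0 x)) = 1 / 2 := by
  have : r0 x * r0 x = _ := Real.mul_self_sqrt (r0_arg x).le
  simp only [Q_def, lift]; linarith

lemma r0_Pos (x : E3) : Pos (lift x (r0 x)) := ⟨r0_pos x, by rw [r0_norm]; norm_num⟩

lemma center_bound (hc : Pos c) {x : E3} (h : Q c (lift x (r0 x)) < 1) : c.2.2.2 ≤ 4 * r0 x := by
  have h1 := (r0_Pos x).bound hc
  rw [r0_norm, Q_comm] at h1
  have : (lift x (r0 x)).2.2.2 = r0 x := rfl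
  nlinarith [r0_pos x]

lemma TT_cover (x : E3) : ∃ P ∈ TT, x ∈ P := by
  obtain ⟨A0, c0, h0, hlt⟩ := small (r0_Pos x) (r0_norm x).le
  obtain ⟨c, ⟨⟨A, h⟩, -⟩, hc⟩ := Set.exists_max_image _
    (fun c => (1 - Q c (lift x (r0 x))) / c.2.2.2) (centers_finite (4 * r0 x))
    ⟨c0, ⟨A0, h0⟩, center_bound h0.ctr.pos hlt⟩
  set d := (1 - Q c (lift x (r0 x))) / c.2.2.2 with hd
  have hd0 : 0 < d := lt_of_lt_of_le (div_pos (by linarith) h0.ctr.pos.1)
    (hc c0 ⟨⟨A0, h0⟩, center_bound h0.ctr.pos hlt⟩)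
  have hr := r0_pos x
  refine ⟨_, ⟨A, c, h, rfl⟩, lift x (r0 x + d), h.mem_hull.2 ⟨⟨⟨?_, ?_⟩, fun A' c' h' => ?_⟩, ?_⟩,
    pr_lift _ _⟩
  · exact add_pos hr hd0
  · have := r0_norm x
    simp only [Q_def, lift] at this ⊢
    nlinarith
  · rw [Q_lift c' x _ (r0 x)]
    have h1 := h'.ctr.pos.1
    by_cases h2 : Q c' (lift x (r0 x)) < 1
    · have := hc c' ⟨⟨A', h'⟩, center_bound h'.ctr.pos h2⟩
      rw [div_le_iff₀ h1] at this
      linarith
    · nlinarith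
  · rw [Q_lift c x _ (r0 x), add_sub_cancel_left, hd, div_mul_cancel₀ _ h.ctr.pos.1.ne']
    ring

lemma TT_locFin (C : Set E3) (hC : IsCompact C) : {P ∈ TT | (P ∩ C).Nonempty}.Finite := by
  have hc : Continuous r0 := by unfold r0; fun_prop
  obtain ⟨M, hM⟩ := hC.bddAbove_image hc.continuousOn
  refine ((tiles_finite (4 * M)).image fun A => pr '' convexHull ℝ A).subset ?_
  rintro _ ⟨⟨A, c, h, rfl⟩, _, ⟨p, hp, rfl⟩, hx⟩
  refine ⟨A, ⟨c, h, ?_⟩, rfl⟩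
  have h1 := hM ⟨_, hx, rfl⟩
  obtain ⟨hK, h2⟩ := h.mem_hull.1 hp
  obtain ⟨A0, c0, h0, hlt⟩ := small (r0_Pos (pr p)) (r0_norm (pr p)).le
  have h3 := hK.2 _ _ h0
  rw [← lift_pr p, Q_lift _ _ _ (r0 (pr p))] at h2 h3
  have h4 : 0 < p.2.2.2 - r0 (pr p) := pos_of_mul_pos_left (b := c0.2.2.2) (by linarith)
    h0.ctr.pos.1.le
  have := center_bound h.ctr.pos (x := pr p) (by nlinarith [h.ctr.pos.1])
  linarith

lemma Tl.basis (h : Tl A c) : ∃ b : Fin 4 → V, (∀ i, b i ∈ A) ∧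
    ∀ w : Fin 4 → ℝ, ∑ i, w i • b i = 0 → ∀ i, w i = 0 := by
  obtain ⟨γ, hγ, j, hj, rfl, -⟩ := h
  have hp := ph_pos
  obtain ⟨u, hu, a, ha, hu'⟩ : ∃ u ∈ B j, ∃ a : ℝ, a ^ 2 = 1 ∧ u = (0, -a, a * ph, ph + 1) := by
    obtain rfl | rfl : j = 3 ∨ j = 4 := by omega
    · exact ⟨v3, by simp [B], 1, by simp, by simp [v3]⟩
    · exact ⟨u2, ⟨u2_mem, by simp only [Q_def, u2, cI]; nlinarith [ph_sq]⟩, -1, by simp, by simp [u2]⟩
  have h2 : B 2 ⊆ B j := B_mono le_rfl (by omega)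
  refine ⟨fun i => γ (![v0, v1, v2, u] i), fun i => ⟨_, ?_, rfl⟩, fun w hw => ?_⟩
  · fin_cases i
    · exact h2 (by simp [B])
    · exact h2 (by simp [B])
    · exact h2 (by simp [B])
    · exact hu
  · simp only [← map_smul, ← map_sum, EmbeddingLike.map_eq_zero_iff] at hw
    simp [Fin.sum_univ_four, v0, v1, v2, hu'] at hw
    obtain ⟨e1, e2, e3, e4⟩ := hw
    have f2 : w 2 = 0 := by nlinarith
    have f3 : w 3 = 0 := by
      have : w 3 * a = 0 := by linarith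
      have : w 3 * a ^ 2 = 0 := by rw [sq, ← mul_assoc, this, zero_mul]
      simpa [ha] using this
    have f0 : w 0 = 0 := by rw [f2, f3] at e4; nlinarith
    intro i
    fin_cases i
    · exact f0
    · show w 1 = 0
      linarith
    · exact f2
    · exact f3

lemma TT_polytope {P : Set E3} (hP : P ∈ TT) : IsPolytope P := by
  obtain ⟨A, c, h, rfl⟩ := hP
  rw [LinearMap.image_convexHull]
  obtain ⟨S, hS⟩ := (h.fc.finite.image pr).exists_finset_coe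
  refine ⟨⟨S, by rw [hS]⟩, ?_⟩
  rw [interior_convexHull_nonempty_iff_affineSpan_eq_top, eq_top_iff]
  obtain ⟨b, hb, hb'⟩ := h.basis
  have hi : AffineIndependent ℝ fun i => pr (b i) := by
    rw [affineIndependent_iff_of_fintype]
    intro w h0 h1
    rw [Finset.weightedVSub_eq_linear_combination _ h0] at h1
    simp only [← map_smul, ← map_sum] at h1
    have h2 : Q c (∑ i, w i • b i) = 0 := by
      simp only [map_sum, map_smul, fun i => h.ctr.one (hb i), smul_eq_mul, mul_one, h0]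
    refine hb' w ?_
    generalize ∑ i, w i • b i = z at *
    have e0 : z.1 = 0 := by rw [← pr0, h1]; rfl
    have e1 : z.2.1 = 0 := by rw [← pr1, h1]; rfl
    have e2 : z.2.2.1 = 0 := by rw [← pr2, h1]; rfl
    have e3 : z.2.2.2 = 0 := by simpa [Q_def, e0, e1, e2, h.ctr.pos.1.ne'] using h2
    exact Prod.ext e0 (Prod.ext e1 (Prod.ext e2 e3))
  rw [← hi.affineSpan_eq_top_iff_card_eq_finrank_add_one.2 (by simp)]
  exact affineSpan_mono ℝ (by rintro _ ⟨i, rfl⟩; exact ⟨_, hb i, rfl⟩)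

theorem TT_isLFC : IsLFC TT where
  polytope _ := TT_polytope
  cover := Set.eq_univ_of_forall fun x => TT_cover x
  disjoint _ hP _ hP' hne := Set.disjoint_left.2 fun _ hx hx' => hne
    ((subset_of_interior (TT_face hP hP') hx hx').antisymm
      (subset_of_interior (TT_face hP' hP) hx' hx))
  faceToFace P hP P' hP' := ⟨TT_face hP hP', Set.inter_comm P P' ▸ TT_face hP' hP⟩
  locallyFinite := TT_locFin

end Pool.Agent.Lib.MP_95e952_co
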